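import Pool.Agent.H95.TS.Stq
import Pool.Agent.H39.TS.Num

/-!
# Thin or steep, for all coordinates of an order

`PkT.thin_steep_all`: at almost every good window of a class each coordinate of the order (the target
included) is thin or `2`-steep: a gain of the coordinate at one radius makes its threshold over the
fattest boxes `2`-steep. No hypothesis on the coordinates before.
-/

set_option autoImplicit false

namespace Pool.TSA

/-- The numbers. -/
theorem numR (r : ℕ) (Sb : ℝ) (hSb : 1 ≤ Sb) : NumR r Sb := num_rad r Sb hSb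

/-- The class composition with several radii. -/
theorem evG (r : ℕ) (hr : 1 ≤ r) (Sb : ℝ) (hSb : 1 ≤ Sb) : EvG r Sb := evG_of hr (numR r Sb hSb)

end Pool.TSA

namespace Pool.PKG

open MeasureTheory Set Filter Topology
open Pool.Agent.H49.Ent Pool.Agent.H32.Dense Pool.STK Pool.KA Pool.KSAT Pool.K2S Pool.PB
open Pool.GEN Pool.S6C Pool.STAT Pool.CHT Pool.GRW Pool.ONE Pool.STA
open Pool.LBT (LSys ThrOf)
open Pool.LEV (Law)
open Pool.TOP (TopS)
open Pool.STR (ThinAt SteepAt StaAt StaD)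
open Pool.NMS (LeAt StepAt thin_or_steep2 sta_of2 slope_eq dia_le)
open Pool.ISO (lvN)

variable {n : ℕ} {hn : 2 ≤ n} {S : PCl n} {P : ℝ → ℝ → ℝ} {r : ℝ → ℝ}
  {P' : ℕ → List (Fin n) × Fin n → ℝ → ℝ → ℝ} {Λ : Finset (Fin n) → Fin n → ℝ → ℝ → ℝ}
  {PB : ℕ → List (Fin n) × Fin n → ℝ → ℝ → ℝ}

namespace PkT

variable (H : PkT hn S P r P' Λ PB)
include H

/-- **Thin or steep**, for every coordinate of every order, at almost every good window. -/
theorem thin_steep_all (hPB : PBle hn S P P' PB) (hTop : TopS n) (hF : FZX (n - 1)) :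
    ∀ᵐ g : ℝ, ∀ o : Od n, g ∈ Gs P r P' Λ o → ∀ i ≤ n - 1, ThK hn P P' PB o i g := by
  have h1 : ∀ᵐ g : ℝ, ∀ o : Od n, ∀ i : ℕ, i ≤ n - 1 →
      g ∈ {g | g ∈ Gs P r P' Λ o ∧ ∀ l < i, ThK hn P P' PB o l g} → 0 < g → g < 1 →
      LvT hn PB o i g g < 1 → ThK hn P P' PB o i g := by
    refine ae_all_iff.2 fun o => ae_all_iff.2 fun i => ?_
    by_cases hi : i ≤ n - 1
    · refine (thin_or_steep2 (H.lawT o i) (H.lawL o i)
        (G := {g | g ∈ Gs P r P' Λ o ∧ ∀ l < i, ThK hn P P' PB o l g}) ?_).mono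
        fun g h _ => h
      filter_upwards [H.step_all hPB hTop hF (fun Sb hSb =>
        Pool.TSA.evG (n - 1) (by omega) Sb hSb), H.dia_all hPB hTop hF] with g k1 k2 hg _ _ _
      exact ⟨(k2 o hg.1 i hi).2.2, H.leAt hPB hTop hF hg.1 hi, k1 o hg.1 i hi hg.2⟩
    · exact Eventually.of_forall fun g h => absurd h hi
  filter_upwards [h1, H.dia_all hPB hTop hF] with g h2 h3 o ho i
  obtain ⟨α, Q, c, F⟩ := H.toPk.fac hTop hF ho
  induction i using Nat.strong_induction_on with
  | _ i ih =>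
    intro hi
    refine h2 o i hi ⟨ho, fun l hl => ih l hl (by omega)⟩ F.g0 F.g1 ?_
    rw [← (h3 o ho i hi).2.2]
    obtain ⟨E, hE, h4, -⟩ := F.ptD H.toPk
    have := h4 i hi
    show lvN (P' o.2) (cc hn o.1.1) (n - 1) P i g g < 1
    linarith

/-- **The target**: thin or steep, at almost every good window. -/
theorem mac_all (hPB : PBle hn S P P' PB) (hTop : TopS n) (hF : FZX (n - 1)) :
    ∀ᵐ g : ℝ, ∀ o : Od n, g ∈ Gs P r P' Λ o →
      ThinAt P (PT hn PB o) g ∨ SteepAt 2 (PT hn PB o) g := by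
  filter_upwards [H.thin_steep_all hPB hTop hF] with g h1 o ho
  have h2 := h1 o ho (n - 1) le_rfl
  have h3 : LvL hn P P' o (n - 1) = P := by
    funext a w
    exact LvL_top o a w
  unfold ThK at h2
  rwa [h3, LvT_top] at h2

/-- **Thin or static**: a coordinate whose diagonal has slope at most two is thin or static, whatever
the coordinates before it are. -/
theorem sta_all (hPB : PBle hn S P P' PB) (hTop : TopS n) (hF : FZX (n - 1)) :
    ∀ᵐ g : ℝ, ∀ o : Od n, g ∈ Gs P r P' Λ o → ∀ i ≤ n - 1,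
      deriv (fun a => LvL hn P P' o i a a) g ≤ 2 → ThS hn P P' PB o i g := by
  filter_upwards [H.thin_steep_all hPB hTop hF, H.dia_all hPB hTop hF] with g h1 h2 o ho i hi hs
  obtain ⟨α, Q, c, F⟩ := H.toPk.fac hTop hF ho
  rcases h1 o ho i hi with h3 | h3
  · exact Or.inl h3
  · obtain ⟨d1, d2, d3⟩ := h2 o ho i hi
    exact Or.inr (sta_of2 (H.lawT o i) (H.lawL o i) F.g0 F.g1 d2 d1 d3
      (H.leAt hPB hTop hF ho hi) h3 hs)

end PkT

end Pool.PKG
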