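import Pool.Agent.H95.GN.Vfd
import Pool.Agent.H2.GEN.AttF

/-!
# Chains at several radii: the recursion

`T j`, `j ≤ N + 1`: the labels at the radii `a j`, over their natural boxes with the sides
`2 ^ (-g j l)`. The differences `T j k - T (j + 1) k` are small on the natural boxes of `T j`. The
coordinates which are not contact coordinates do not tilt. `rec_dvf`: the derivatives of the
differences in the contact directions of the chain `T 0`.
-/

set_option autoImplicit false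

namespace Pool.TSA

open Finset Real MvPolynomial
open Pool.Agent.H49.Ent Pool.Agent.H32.Dense Pool.STK Pool.KA Pool.KSAT Pool.K2S Pool.PB Pool.S6C
open Pool.GEN Pool.CHT Pool.VFD

variable {m : ℕ}

theorem dvf_sum {c : ℕ → Fin m} {G : ℕ → MvPolynomial (Option (Fin m)) ℝ} {j i : ℕ}
    (f : ℕ → MvPolynomial (Option (Fin m)) ℝ) (n : ℕ) :
    dvf c G j i (∑ k ∈ range n, f k) = ∑ k ∈ range n, dvf c G j i (f k) := by
  induction n with
  | zero =>
    rw [Finset.sum_range_zero, Finset.sum_range_zero]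
    exact dvf_time i (fun b b' _ _ => by rw [map_zero, map_zero])
  | succ n ih =>
    rw [Finset.sum_range_succ, Finset.sum_range_succ, dvf_add, ih]

/-- The telescope. -/
theorem tel (T : ℕ → ℕ → MvPolynomial (Option (Fin m)) ℝ) (l j : ℕ) :
    T 0 l - T j l = ∑ j' ∈ range j, (T j' l - T (j' + 1) l) := by
  rw [Finset.sum_range_sub' (fun j' => T j' l)]

/-- **The recursion.** -/
theorem rec_dvf (D r N : ℕ) : ∃ K : ℕ, ∀ {m : ℕ} {c : ℕ → Fin m} {ct : ℕ → Prop} {i : ℕ}
    {T : ℕ → ℕ → MvPolynomial (Option (Fin m)) ℝ} {g e ξ : ℕ → ℕ → ℕ} {a : ℕ → ℕ} {t : ℝ} {n : ℕ},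
    i ≤ r → Set.InjOn c (Set.Iio i) → (∀ j ≤ N + 1, ∀ l, (T j l).totalDegree ≤ D) →
    (∀ j ≤ N + 1, ∀ l, DepC c l (T j l)) → (∀ j ≤ N, a j ≤ a 0) →
    (∀ l < i, ¬ ct l → ∀ j ≤ N, DepC c 0 (T 0 l - T j l)) →
    (∀ j ≤ N, ∀ b, NBx c (T 0) (g 0) (a 0) t i b → ∀ l < i,
      |b (some (c l)) - eval b (T j l)| ≤ 2 ^ n / 2 ^ g j l) →
    (∀ j ≤ N, ∀ l < i, n ≤ g j l) →
    (∀ j ≤ N, ∀ k ≤ i, (k = i ∨ ct k) → ∀ b, NBx c (T j) (g j) (a j) t k b →
      |eval b (T j k) - eval b (T (j + 1) k)| ≤ 1 / 2 ^ e j k) →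
    (∀ j ≤ N, ∀ k ≤ i, (k = i ∨ ct k) → ∀ l < k, ct l →
      ξ j k + g j l + K * (n + 1) ≤ g 0 l + e j k) →
    (∀ j ≤ N, ∀ k ≤ i, (k = i ∨ ct k) → ∀ l < k, ct l → ∀ j' < j,
      ξ j k + g j l + K * (n + 1) ≤ ξ j' l + e j k) →
    ∀ k ≤ i, ∀ j ≤ N, (k = i ∨ ct k) → ∀ l < k, ct l → ∀ b, NBx c (T 0) (g 0) (a 0) t i b →
      |eval b (dvf c (T 0) l k (T j k - T (j + 1) k))| ≤ 2 ^ g 0 l / 2 ^ ξ j k := by
  obtain ⟨C, hC, hmk⟩ := dvf_mk D (r + 1)
  obtain ⟨c₀, D₁, hD₁, hdil⟩ := nbx_dil (r + 1) (fun _ => D)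
  obtain ⟨t₁, ht₁⟩ := pow_unbounded_of_one_lt C (one_lt_two (α := ℝ))
  obtain ⟨t₂, ht₂⟩ := pow_unbounded_of_one_lt (1 + (r : ℝ) * N) (one_lt_two (α := ℝ))
  refine ⟨t₂ + t₁ + c₀ + D₁, ?_⟩
  intro m c ct i T g e ξ a t n hi hc hdeg hdep ha hrg hinc hng hsm n1 n2
  have hC0 : (0 : ℝ) ≤ C := by linarith only [hC]
  obtain ⟨Mk, hMk⟩ : ∃ Mk : ℝ, Mk = C * 2 ^ (c₀ + n * D₁) := ⟨_, rfl⟩
  have hMk0 : 0 ≤ Mk := by rw [hMk]; positivity
  have hMK : (1 + (r : ℝ) * N) * Mk ≤ 2 ^ ((t₂ + t₁ + c₀ + D₁) * (n + 1)) := by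
    have h0 : (0 : ℝ) ≤ 1 + (r : ℝ) * N := by positivity
    calc (1 + (r : ℝ) * N) * Mk ≤ 2 ^ t₂ * (2 ^ t₁ * 2 ^ (c₀ + n * D₁)) := by
          rw [hMk]
          exact mul_le_mul ht₂.le (mul_le_mul_of_nonneg_right ht₁.le (by positivity))
            (by positivity) (by positivity)
      _ = 2 ^ (t₂ + (t₁ + (c₀ + n * D₁))) := by
          rw [pow_add (2 : ℝ) t₂, pow_add (2 : ℝ) t₁]
      _ ≤ _ := by
          refine pow_le_pow_right₀ (by norm_num) ?_
          have e1 : (t₂ + t₁ + c₀ + D₁) * (n + 1) =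
            t₂ + t₁ + c₀ + D₁ + (t₂ * n + t₁ * n + c₀ * n + n * D₁) := by ring
          rw [e1]
          have := Nat.zero_le (t₂ * n + t₁ * n + c₀ * n)
          omega
  have ha2 : ∀ j ≤ N, (1 : ℝ) / 2 ^ a 0 ≤ 1 / 2 ^ a j := fun j hj =>
    one_div_le_one_div_of_le (by positivity) (pow_le_pow_right₀ (by norm_num) (ha j hj))
  -- the derivatives in the chain `T j`
  have base : ∀ j ≤ N, ∀ k ≤ i, (k = i ∨ ct k) → ∀ l < k, ∀ b,
      NBx c (T 0) (g 0) (a 0) t i b →
      |eval b (dvf c (T j) l k (T j k - T (j + 1) k))| ≤ Mk * 2 ^ g j l / 2 ^ e j k := by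
    intro j hj k hk hkc l hl b hb
    obtain ⟨g', hg'⟩ : ∃ g' : ℕ → ℕ, g' = fun l => g j l - n := ⟨_, rfl⟩
    have hgg : ∀ l < i, (1 : ℝ) / 2 ^ g' l = 2 ^ n / 2 ^ g j l := by
      intro l hl
      rw [hg', div_eq_div_iff (by positivity) (by positivity), one_mul, ← pow_add]
      congr 1
      have := hng j hj l hl
      show g j l = n + (g j l - n)
      omega
    have hck : Set.InjOn c (Set.Iio k) := hc.mono fun x hx => lt_of_lt_of_le hx hk
    have hW : (T j k - T (j + 1) k).totalDegree ≤ D :=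
      (totalDegree_sub _ _).trans (max_le (hdeg j (by omega) _) (hdeg (j + 1) (by omega) _))
    have h1 := hmk (c := c) (i := k) (G := T j) (W := T j k - T (j + 1) k) (g := g') (a := a 0)
      (t := t) (M := 2 ^ (c₀ + n * D₁) * (1 / 2 ^ e j k)) (b := b) (j := l) (by omega) hck
      (hdeg j (by omega)) (hdep j (by omega)) hW (fun b' hb' => ?_) ⟨hb.1, fun l' hl' => ?_⟩ hl
    · refine h1.trans ?_
      have h2 : (2 : ℝ) ^ g' l ≤ 2 ^ g j l := by
        rw [hg']
        exact pow_le_pow_right₀ (by norm_num) (Nat.sub_le _ _)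
      calc C * (2 ^ (c₀ + n * D₁) * (1 / 2 ^ e j k)) * 2 ^ g' l ≤
          C * (2 ^ (c₀ + n * D₁) * (1 / 2 ^ e j k)) * 2 ^ g j l :=
            mul_le_mul_of_nonneg_left h2 (by positivity)
        _ = Mk * 2 ^ g j l / 2 ^ e j k := by
            rw [hMk]
            ring
    · refine hdil (c := c) (i := k) (G := T j) (Q := T j k - T (j + 1) k) (g := g j) (a := a 0)
        (t := t) (M := 1 / 2 ^ e j k) n (by omega) hck (hdeg j (by omega)) (hdep j (by omega))
        (dep_sub (hdep j (by omega) k) (hdep (j + 1) (by omega) k)) hW (by positivity) (fun b₁ hb₁ => ?_) b' hb'.1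
        (fun l' hl' => ?_)
      · rw [map_sub]
        exact hsm j hj k hk hkc b₁ ⟨hb₁.1.trans (ha2 j hj), hb₁.2⟩
      · rw [← hgg l' (by omega)]
        exact hb'.2 l' hl'
    · rw [hgg l' (by omega)]
      exact hinc j hj b hb l' (by omega)
  -- the induction
  intro k
  induction k using Nat.strong_induction_on with
  | _ k ih =>
    intro hk j hj hkc l hl hcl b hb
    rw [dvf_chg (G := T 0) (G' := T j) k (T j k - T (j + 1) k), map_add, map_sum]
    obtain ⟨Z, hZ⟩ : ∃ Z : ℝ, Z = 2 ^ g 0 l / 2 ^ ξ j k / 2 ^ ((t₂ + t₁ + c₀ + D₁) * (n + 1)) :=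
      ⟨_, rfl⟩
    have hZ0 : 0 ≤ Z := by rw [hZ]; positivity
    have h1 : |eval b (dvf c (T j) l k (T j k - T (j + 1) k))| ≤ Mk * Z := by
      refine (base j hj k hk hkc l hl b hb).trans ?_
      rw [mul_div_assoc]
      refine mul_le_mul_of_nonneg_left ?_ hMk0
      rw [hZ, div_div, div_le_div_iff₀ (by positivity) (by positivity), ← pow_add, ← pow_add,
        ← pow_add]
      refine pow_le_pow_right₀ (by norm_num) ?_
      have := n1 j hj k hk hkc l hl hcl
      omega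
    have h2 : ∀ l' ∈ Ico (l + 1) k, |eval b (dvf c (T 0) l l' (T 0 l' - T j l') *
        dvf c (T j) l' k (T j k - T (j + 1) k))| ≤ N * (Mk * Z) := by
      intro l' hl'
      rw [Finset.mem_Ico] at hl'
      rw [map_mul, abs_mul]
      by_cases hcl' : ct l'
      · have h3 := base j hj k hk hkc l' hl'.2 b hb
        have h4 : |eval b (dvf c (T 0) l l' (T 0 l' - T j l'))| ≤
            ∑ j' ∈ range j, 2 ^ g 0 l / 2 ^ ξ j' l' := by
          rw [tel T l' j, dvf_sum, map_sum]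
          refine (Finset.abs_sum_le_sum_abs _ _).trans (Finset.sum_le_sum fun j' hj' => ?_)
          rw [Finset.mem_range] at hj'
          exact ih l' hl'.2 (by omega) j' (by omega) (Or.inr hcl') l (by omega) hcl b hb
        calc _ ≤ (∑ j' ∈ range j, (2 : ℝ) ^ g 0 l / 2 ^ ξ j' l') *
              (Mk * 2 ^ g j l' / 2 ^ e j k) :=
              mul_le_mul h4 h3 (abs_nonneg _) (Finset.sum_nonneg fun _ _ => by positivity)
          _ = ∑ j' ∈ range j, Mk * ((2 : ℝ) ^ g 0 l / 2 ^ ξ j' l' * (2 ^ g j l' / 2 ^ e j k)) := by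
              rw [Finset.sum_mul]
              refine Finset.sum_congr rfl fun j' _ => ?_
              ring
          _ ≤ ∑ _j' ∈ range j, Mk * Z := by
              refine Finset.sum_le_sum fun j' hj' => mul_le_mul_of_nonneg_left ?_ hMk0
              rw [Finset.mem_range] at hj'
              rw [hZ, div_div, div_mul_div_comm, div_le_div_iff₀ (by positivity) (by positivity),
                ← pow_add, ← pow_add, ← pow_add, ← pow_add, ← pow_add]
              refine pow_le_pow_right₀ (by norm_num) ?_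
              have := n2 j hj k hk hkc l' hl'.2 hcl' j' hj'
              omega
          _ = j * (Mk * Z) := by
              rw [Finset.sum_const, Finset.card_range, nsmul_eq_mul]
          _ ≤ N * (Mk * Z) := by
              refine mul_le_mul_of_nonneg_right (by exact_mod_cast hj) (by positivity)
      · rw [dvf_time l' (hrg l' (by omega) hcl' j hj), map_zero, abs_zero, zero_mul]
        positivity
    calc _ ≤ Mk * Z + ∑ _l' ∈ Ico (l + 1) k, (N : ℝ) * (Mk * Z) :=
          (abs_add_le _ _).trans (add_le_add h1 ((Finset.abs_sum_le_sum_abs _ _).trans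
            (Finset.sum_le_sum h2)))
      _ ≤ Mk * Z + r * (N * (Mk * Z)) := by
          rw [Finset.sum_const, Nat.card_Ico, nsmul_eq_mul]
          refine add_le_add le_rfl (mul_le_mul_of_nonneg_right ?_ (by positivity))
          have : k - (l + 1) ≤ r := by omega
          exact_mod_cast this
      _ = (1 + (r : ℝ) * N) * Mk * Z := by ring
      _ ≤ 2 ^ ((t₂ + t₁ + c₀ + D₁) * (n + 1)) * Z := mul_le_mul_of_nonneg_right hMK hZ0
      _ = 2 ^ g 0 l / 2 ^ ξ j k := by
          rw [hZ]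
          field_simp

end Pool.TSA
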