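import Pool.Agent.H95.GN.Fit
import Pool.Agent.H95.TS.Rec

/-!
# Comparison of chains at one window

`Nlb`: a chain over the first `i` coordinates with a label of the coordinate `c i`. `nl_cmp`: two
such chains at one radius, one of them with no relation.
-/

set_option autoImplicit false

namespace Pool.TSA

open Finset Real MvPolynomial
open Pool.Agent.H49.Ent Pool.Agent.H32.Dense Pool.STK Pool.KA Pool.KSAT Pool.K2S Pool.PB Pool.S6C
open Pool.GEN Pool.CHT Pool.VFD Pool.ISO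

variable {m J : ℕ}

/-- **A chain over the first `i` coordinates with a label of the coordinate `c i`.** -/
structure Nlb (F : Fam m J) (c : ℕ → Fin m) (i D a w e : ℕ) (g : ℕ → ℕ) (B : F.Ω → Prop)
    (T : PtT F → ℕ → MvPolynomial (Option (Fin m)) ℝ)
    (TH : LnT F → ℕ → MvPolynomial (Option (Fin m)) ℝ) : Prop where
  chn : ChOK F c i (fun _ => D) a w e g B T TH
  pos : ∀ ω, B ω → |F.x ω (c i) - eval (bt F ω) (T (ptr F J ω) i)| ≤ 1 / 2 ^ g i
  agr : ∀ ω, B ω → ∀ b, NBx c (T (ptr F J ω)) g a (F.t ω) i b →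
    |eval b (T (ptr F J ω) i) - eval b (TH (slam F w ω) i)| ≤ 1 / 2 ^ g i

theorem Nlb.sub {F : Fam m J} {c : ℕ → Fin m} {i D a w e : ℕ} {g : ℕ → ℕ} {B B' : F.Ω → Prop}
    {T : PtT F → ℕ → MvPolynomial (Option (Fin m)) ℝ}
    {TH : LnT F → ℕ → MvPolynomial (Option (Fin m)) ℝ} (h : Nlb F c i D a w e g B T TH)
    (hB : Sub B' B) : Nlb F c i D a w e g B' T TH :=
  ⟨h.chn.sub hB, fun ω hω => h.pos ω (hB ω hω), fun ω hω => h.agr ω (hB ω hω)⟩

theorem Nlb.rad {F : Fam m J} {c : ℕ → Fin m} {i D a a' w e : ℕ} {g : ℕ → ℕ} {B : F.Ω → Prop}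
    {T : PtT F → ℕ → MvPolynomial (Option (Fin m)) ℝ}
    {TH : LnT F → ℕ → MvPolynomial (Option (Fin m)) ℝ} (h : Nlb F c i D a w e g B T TH)
    (ha : a ≤ a') : Nlb F c i D a' w e g B T TH :=
  ⟨h.chn.mono le_rfl (fun _ => le_rfl) ha le_rfl, h.pos,
    fun ω hω b hb => h.agr ω hω b (hb.mono ha le_rfl)⟩

theorem Nlb.posk {F : Fam m J} {c : ℕ → Fin m} {i D a w e : ℕ} {g : ℕ → ℕ} {B : F.Ω → Prop}
    {T : PtT F → ℕ → MvPolynomial (Option (Fin m)) ℝ}
    {TH : LnT F → ℕ → MvPolynomial (Option (Fin m)) ℝ} (h : Nlb F c i D a w e g B T TH)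
    {ω : F.Ω} (hω : B ω) {k : ℕ} (hk : k ≤ i) :
    |F.x ω (c k) - eval (bt F ω) (T (ptr F J ω) k)| ≤ 1 / 2 ^ g k := by
  rcases hk.eq_or_lt with h1 | h1
  · rw [h1]
    exact h.pos ω hω
  · exact h.chn.pos ω hω k h1

theorem Nlb.agrk {F : Fam m J} {c : ℕ → Fin m} {i D a w e : ℕ} {g : ℕ → ℕ} {B : F.Ω → Prop}
    {T : PtT F → ℕ → MvPolynomial (Option (Fin m)) ℝ}
    {TH : LnT F → ℕ → MvPolynomial (Option (Fin m)) ℝ} (h : Nlb F c i D a w e g B T TH)
    {ω : F.Ω} (hω : B ω) {k : ℕ} (hk : k ≤ i) {b : Option (Fin m) → ℝ}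
    (hb : NBx c (T (ptr F J ω)) g a (F.t ω) k b) :
    |eval b (T (ptr F J ω) k) - eval b (TH (slam F w ω) k)| ≤ 1 / 2 ^ g k := by
  rcases hk.eq_or_lt with h1 | h1
  · subst h1
    exact h.agr ω hω b hb
  · exact h.chn.agr ω hω k h1 b hb

/-- The first coordinates. -/
theorem inc_pre {c : ℕ → Fin m} {G G' : ℕ → MvPolynomial (Option (Fin m)) ℝ} {g : ℕ → ℕ}
    {a i k : ℕ} {t : ℝ} {M : ℕ → ℝ} (hc : Set.InjOn c (Set.Iio i)) (hG : ∀ l, DepC c l (G l))
    (hG' : ∀ l, DepC c l (G' l)) (hk : k ≤ i)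
    (h : ∀ b, NBx c G g a t i b → ∀ l < i, |b (some (c l)) - eval b (G' l)| ≤ M l)
    (b : Option (Fin m) → ℝ) (hb : NBx c G g a t k b) (l : ℕ) (hl : l < k) :
    |b (some (c l)) - eval b (G' l)| ≤ M l := by
  have h1 := nbx_ext (c := c) (G := G) (g := g) (a := a) (t := t) (ε := M l)
    (Q := X (some (c l)) - G' l) hc hG (fun b b' hn hb => by
      rw [map_sub, map_sub, eval_X, eval_X, hb l hl,
        hG' l b b' hn fun l' hl' => hb l' (by omega)]) hk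
    (fun b hb => by
      rw [map_sub, eval_X]
      exact h b hb l (by omega)) b hb
  rwa [map_sub, eval_X] at h1

/-- **Two chains at one radius.** -/
theorem nl_cmp (D r : ℕ) (hD : 1 ≤ D) : ∃ C : ℕ, ∀ {m J : ℕ} {F : Fam m J} {c : ℕ → Fin m}
    {ct : ℕ → Prop} {i D' a w e e' h n N : ℕ} {κ : ℝ} {g g' : ℕ → ℕ} {B₀ B : F.Ω → Prop}
    {T T' : PtT F → ℕ → MvPolynomial (Option (Fin m)) ℝ}
    {TH T'H : LnT F → ℕ → MvPolynomial (Option (Fin m)) ℝ}, i ≤ r →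
    Set.InjOn c (Set.Iio i) → Nlb F c i D a w e g B₀ T TH → RelvF F c i a w g D' h κ B₀ T →
    Nlb F c i D a w e' g' B₀ T' T'H → D ≤ D' → κ * 2 ^ N ≤ 1 → n + (2 * r + 2) ≤ N →
    Lg F B₀ B n → (∀ k ≤ i, (k = i ∨ ct k) → g' k ≤ g k + h) →
    ∃ B' : F.Ω → Prop, Sub B' B ∧ Lg F B₀ B' (n + (2 * r + 2)) ∧ ∀ ω, B' ω →
      (∀ b, NBx c (T (ptr F J ω)) g a (F.t ω) i b → ∀ l < i,
        |b (some (c l)) - eval b (T' (ptr F J ω) l)| ≤ 2 ^ (C * (h + 1)) / 2 ^ g' l) ∧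
      ∀ k ≤ i, (k = i ∨ ct k) → ∀ b, NBx c (T (ptr F J ω)) g a (F.t ω) k b →
        |eval b (T (ptr F J ω) k) - eval b (T' (ptr F J ω) k)| ≤
          2 ^ (C * (h + 1)) / 2 ^ g' k := by
  obtain ⟨Cm, hmv⟩ := lg_mv D (r + 1) hD
  obtain ⟨c₀, D₁, hD₁, hdil⟩ := nbx_dil (r + 1) (fun _ => D)
  obtain ⟨C, hC⟩ : ∃ C : ℕ, C = Cm + c₀ + Cm * D₁ + 3 := ⟨_, rfl⟩
  refine ⟨C, ?_⟩
  intro m J F c ct i D' a w e e' h n N κ g g' B₀ B T T' TH T'H hi hc hT hR hT' hDD hκ hN hB hgg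
  obtain ⟨p₀, hp₀⟩ : ∃ p₀, p₀ = Cm * (h + 1) := ⟨_, rfl⟩
  have hC1 : C * (h + 1) = Cm * (h + 1) + c₀ * (h + 1) + Cm * (h + 1) * D₁ + 3 * (h + 1) := by
    rw [hC]
    ring
  have hexp : h + 1 + (c₀ + p₀ * D₁ + h) ≤ C * (h + 1) := by
    have h2 : c₀ ≤ c₀ * (h + 1) := Nat.le_mul_of_pos_right _ (by omega)
    rw [hC1, ← hp₀]
    omega
  have hpC : p₀ ≤ C * (h + 1) := by
    rw [hC1, ← hp₀]
    omega
  have hfin : ∀ q : ℕ, (2 : ℝ) ^ (h + 1) * (2 ^ (c₀ + p₀ * D₁ + h) * (1 / 2 ^ q)) ≤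
      2 ^ (C * (h + 1)) / 2 ^ q := by
    intro q
    rw [← mul_assoc, ← pow_add, mul_one_div]
    exact div_le_div_of_nonneg_right (pow_le_pow_right₀ (by norm_num) hexp) (by positivity)
  have h1le : ∀ q q' : ℕ, q ≤ q' + h →
      (1 : ℝ) / 2 ^ q' ≤ 2 ^ (c₀ + p₀ * D₁ + h) * (1 / 2 ^ q) := by
    intro q q' hq
    rw [mul_one_div, div_le_div_iff₀ (by positivity) (by positivity), one_mul, ← pow_add]
    exact pow_le_pow_right₀ (by norm_num) (by omega)
  -- the boxes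
  obtain ⟨A₁, a1, a2, a3⟩ := hmv (e' := e') (show i < r + 1 by omega) hc hR hDD hκ (n := n)
    (by omega) hB (hT'.chn.sub hB.1)
  rw [← hp₀] at a3
  -- the labels
  obtain ⟨A₂, b1, b2, b3⟩ := lg_iter (F := F) (B₀ := B₀) (A := A₁) (N := N) (k := i + 1)
    (P := fun k ω => (k = i ∨ ct k) → ∀ b, NBx c (T (ptr F J ω)) g a (F.t ω) k b →
        |eval b (T (ptr F J ω) k) - eval b (T' (ptr F J ω) k)| ≤
          2 ^ (C * (h + 1)) / 2 ^ g' k)
    (fun k hk B' n' hn' hB' hA' => by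
      have hki : k ≤ i := by omega
      by_cases hkc : k = i ∨ ct k
      · have hRk := relvF_pre hR hc hT.chn.depG hki
        obtain ⟨B'', q1, q2, q3⟩ := lg_two (X₁ := fun y => T y k) (X₂ := fun y => T' y k)
          (Y₁ := fun s => TH s k) (Y₂ := fun s => T'H s k) (x := fun ω => F.x ω (c k))
          (M := 2 ^ (c₀ + p₀ * D₁ + h) * (1 / 2 ^ g' k)) hRk hDD hκ (n := n') hn' hB'
          (by positivity) (fun y => hT.chn.degG y k) (fun y => hT'.chn.degG y k)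
          (fun s => hT.chn.degH s k) (fun s => hT'.chn.degH s k)
          (fun y => hT.chn.depG y k) (fun y => hT'.chn.depG y k)
          (fun s => hT.chn.depH s k) (fun s => hT'.chn.depH s k)
          (fun ω hω => (hT.posk (hB'.1 ω hω) hki).trans (h1le _ _ (hgg k hki hkc)))
          (fun ω hω => (hT'.posk (hB'.1 ω hω) hki).trans (h1le _ _ (Nat.le_add_right _ _)))
          (fun ω hω b hb => (hT.agrk (hB'.1 ω hω) hki hb).trans (h1le _ _ (hgg k hki hkc)))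
          (fun ω hω b hb => by
            have h1 := hdil (c := c) (i := k) (G := T' (ptr F J ω))
              (Q := T' (ptr F J ω) k - T'H (slam F w ω) k) (g := g') (a := a) (t := F.t ω)
              (M := 1 / 2 ^ g' k) p₀ (by omega) (hc.mono fun y hy => lt_of_lt_of_le hy hki)
              (hT'.chn.degG _) (hT'.chn.depG _)
              (dep_sub (hT'.chn.depG _ k) (hT'.chn.depH _ k)) ((totalDegree_sub _ _).trans
                (max_le (hT'.chn.degG _ k) (hT'.chn.degH _ k)))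
              (by positivity) (fun y hy => by
                rw [map_sub]
                exact hT'.agrk (hB'.1 ω hω) hki hy) b hb.1
              (inc_pre hc (hT.chn.depG _) (hT'.chn.depG _) hki (a3 ω (hA' ω hω)) b hb)
            rw [map_sub] at h1
            refine h1.trans (mul_le_mul_of_nonneg_right (pow_le_pow_right₀ (by norm_num)
              (Nat.le_add_right _ _)) (by positivity)))
        exact ⟨B'', q1, q2, fun ω hω _ b hb => (q3 ω hω b hb).trans (hfin _)⟩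
      · exact ⟨B', fun _ h => h, hB'.mono (Nat.le_succ _), fun ω _ h => absurd h hkc⟩)
    (n := n + (r + 1)) (by omega) a2 (fun _ h => h)
  refine ⟨A₂, fun ω hω => a1 ω (b1 ω hω), b2.mono (by omega), fun ω hω => ⟨?_, ?_⟩⟩
  · intro b hb l hl
    refine (a3 ω (b1 ω hω) b hb l hl).trans (div_le_div_of_nonneg_right ?_ (by positivity))
    exact pow_le_pow_right₀ (by norm_num) hpC
  · intro k hk
    exact b3 ω hω k (by omega)

end Pool.TSA
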