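import Pool.Agent.H2.GEN.EvS

/-!
# Closed balls, mixed thin chains and labels: finitely many windows and radii

`ev_cor`: `Pool.ISO.ev_con` with a radius for each window.
-/

set_option autoImplicit false

namespace Pool.TSA

open Finset Real MvPolynomial
open Pool.Agent.H49.Ent Pool.Agent.H32.Dense Pool.STK Pool.KA Pool.KSAT Pool.K2S Pool.PB Pool.S6C
open Pool.GEN Pool.CHT Pool.CHX Pool.ISO
open Pool.LBT (LSys Slo Tri ThrOf fl_le' bas_false)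
open Pool.LEV (Law)
open Pool.FLF (Fam.sub)
open Pool.JTN (TgP)

/-- **Finitely many windows and radii on one event.** -/
theorem ev_cor (m r S₀ : ℕ) (hr : 1 ≤ r) (hS₀ : 1 ≤ S₀) : ∃ D : ℕ, 1 ≤ D ∧ ∀ Dr : ℕ, ∃ C : ℝ,
    1 ≤ C ∧ ∀ {S : PCl m} {P : List (Fin m) × Fin m → ℝ → ℝ → ℝ} {θ : ℝ} {c : ℕ → Fin m}
    {Pt : ℝ → ℝ → ℝ} {R : ℕ → Prop} {Eb : ℝ} {a o ε p' η σ r₀ : ℕ → ℝ} (N M : ℕ),
    ThrOf (chsys m θ) S P → 0 < θ → TmH S → Set.InjOn c (Set.Iio (r + 1)) → Law Pt →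
    (∀ k ≤ N, WinD S P θ c r Pt (a k) (o k) S₀ Eb (ε k) R) →
    (∀ k ≤ N, C * ε k < o k ∧ C * ε k < η k) →
    (∀ k ≤ N, 0 ≤ p' k ∧ p' k + C * ε k < Pt (a k) (o k)) → (∀ k ≤ N, 0 < σ k ∧ 0 < r₀ k) →
    ∃ (K₁ : ℝ) (μ : ℕ → ℝ) (b : ℕ → ℕ → ℝ), 0 < K₁ ∧ (∀ k ≤ N, 0 < μ k ∧ ∀ l ≤ r,
        lvN P c r Pt l (o k) (o k) - σ k < b k l ∧
        b k l < lvN P c r Pt l (o k) (o k) - μ k) ∧
      ∀ κ : ℝ, 0 < κ → Bas S (fun J F A => ∀ z : ℕ → ℕ → ℕ,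
        (∀ k ≤ N, ∀ i ≤ M, r₀ k * J ≤ z k i ∧ z k i ≤ ⌊a k * J⌋₊ - ⌊o k * J⌋₊) →
        ∃ B : F.Ω → Prop, Sub B A ∧ Pe F.p A ≤ K₁ * Pe F.p B ∧ ∀ k ≤ N,
          EvX F c r D Dr ⌊o k * J⌋₊ (⌊a k * J⌋₊ - ⌊o k * J⌋₊) M (z k)
            ⌊(Eb + σ k + η k) * J⌋₊ ⌊η k * J⌋₊ ⌊p' k * J⌋₊ R (fun l => ⌊b k l * J⌋₊)
            (fun l => lvN P c r Pt l (o k) (o k)) (fun l => bet P c l (a k) (o k)) (σ k) (ε k) (η k)
            κ B) := by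
  obtain ⟨D, hD, hwin⟩ := ev_win m r S₀ hr hS₀
  refine ⟨D, hD, fun Dr => ?_⟩
  obtain ⟨C, hC, hwin⟩ := hwin Dr
  refine ⟨C, hC, ?_⟩
  intro S P θ c Pt R Eb a o ε p' η σ r₀ N M hP hθ hS hinj hPt hW hε hp' hσ
  -- one window
  have h1 : ∀ k, ∃ (K₁ μ : ℝ) (b : ℕ → ℝ), k ≤ N → 0 < K₁ ∧ 0 < μ ∧
      (∀ l ≤ r, lvN P c r Pt l (o k) (o k) - σ k < b l ∧
        b l < lvN P c r Pt l (o k) (o k) - μ) ∧
      ∀ κ : ℝ, 0 < κ → Bas S (fun J F A => ∀ z : ℕ → ℕ,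
        (∀ i ≤ M, r₀ k * J ≤ z i ∧ z i ≤ ⌊a k * J⌋₊ - ⌊o k * J⌋₊) →
        ∃ B : F.Ω → Prop, Sub B A ∧ Pe F.p A ≤ K₁ * Pe F.p B ∧
          EvX F c r D Dr ⌊o k * J⌋₊ (⌊a k * J⌋₊ - ⌊o k * J⌋₊) M z
            ⌊(Eb + σ k + η k) * J⌋₊ ⌊η k * J⌋₊ ⌊p' k * J⌋₊ R (fun l => ⌊b l * J⌋₊)
            (fun l => lvN P c r Pt l (o k) (o k)) (fun l => bet P c l (a k) (o k)) (σ k) (ε k) (η k)
            κ B) := by
    intro k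
    by_cases hk : k ≤ N
    · obtain ⟨ρ, vs, e, e₀, E, sg, Q, d1, d2⟩ := (hW k hk).dw
      obtain ⟨ρ', vs', e', e₀', E', sg', Q', d3, d4, d5⟩ := (hW k hk).da
      obtain ⟨K₁, μ, b, k1, k2, k3, k4⟩ := hwin (R := R) hP hθ hS hinj hPt (hW k hk).lt d1 d3 d2
        d4 d5 (hW k hk).ε0 (hW k hk).rgh (fun l hl => by
          have := (hW k hk).top l hl
          linarith) (hε k hk).1 (p' k) (hp' k hk).1 (hp' k hk).2 (η k) (σ k) (r₀ k) M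
        (hε k hk).2 (hσ k hk).1 (hσ k hk).2
      refine ⟨K₁, μ, b, fun _ => ⟨k1, k2, k3, fun κ hκ => (k4 κ hκ).mono 0 ?_⟩⟩
      rintro J - F A hA z hz
      obtain ⟨B, gc, gT, g₀, G₀, H₀, T, TH, Gt, Ht, l1, l2, l3, l4⟩ := hA z hz
      exact ⟨B, l1, l2, gc, gT, g₀, G₀, H₀, T, TH, Gt, Ht, l3, l4⟩
    · exact ⟨0, 0, fun _ => 0, fun h => absurd h hk⟩
  choose K₁ μ b hb using h1
  -- all windows
  have h2 : ∀ n ≤ N, ∃ K : ℝ, 0 < K ∧ ∀ κ : ℝ, 0 < κ → Bas S (fun J F A => ∀ z : ℕ → ℕ → ℕ,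
        (∀ k ≤ N, ∀ i ≤ M, r₀ k * J ≤ z k i ∧ z k i ≤ ⌊a k * J⌋₊ - ⌊o k * J⌋₊) →
        ∃ B : F.Ω → Prop, Sub B A ∧ Pe F.p A ≤ K * Pe F.p B ∧ ∀ k ≤ n,
          EvX F c r D Dr ⌊o k * J⌋₊ (⌊a k * J⌋₊ - ⌊o k * J⌋₊) M (z k)
            ⌊(Eb + σ k + η k) * J⌋₊ ⌊η k * J⌋₊ ⌊p' k * J⌋₊ R (fun l => ⌊b k l * J⌋₊)
            (fun l => lvN P c r Pt l (o k) (o k)) (fun l => bet P c l (a k) (o k)) (σ k) (ε k) (η k)
            κ B) := by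
    intro n
    induction n with
    | zero =>
      intro _
      obtain ⟨k1, -, -, k4⟩ := hb 0 (Nat.zero_le N)
      refine ⟨K₁ 0, k1, fun κ hκ => (k4 κ hκ).mono 0 ?_⟩
      rintro J - F A hA z hz
      obtain ⟨B, l1, l2, l3⟩ := hA (z 0) (hz 0 (Nat.zero_le N))
      exact ⟨B, l1, l2, fun k hk => by rw [Nat.le_zero.1 hk]; exact l3⟩
    | succ n ih =>
      intro hn
      obtain ⟨K, hK, hA⟩ := ih (by omega)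
      obtain ⟨k1, -, -, k4⟩ := hb (n + 1) hn
      refine ⟨K * K₁ (n + 1), mul_pos hK k1, fun κ hκ => ?_⟩
      have h3 := hA (κ / K₁ (n + 1)) (div_pos hκ k1)
      have h4 := bas_ev (k4 κ hκ) (κ := 1 / K) (by positivity)
      refine Bas.mono 0 (h3.and h4) ?_
      rintro J - F A ⟨h5, h6⟩ z hz
      obtain ⟨B, l1, l2, l3⟩ := h5 z hz
      obtain ⟨B', m1, m2, m3⟩ := h6 B l1 (by
        rw [one_div, inv_mul_le_iff₀ hK]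
        exact l2) (z (n + 1)) (hz (n + 1) hn)
      refine ⟨B', fun ω hω => l1 ω (m1 ω hω), ?_, fun k hk => ?_⟩
      · calc Pe F.p A ≤ K * Pe F.p B := l2
          _ ≤ K * (K₁ (n + 1) * Pe F.p B') := mul_le_mul_of_nonneg_left m2 hK.le
          _ = _ := by ring
      · rcases Nat.lt_or_ge n k with h7 | h7
        · have h8 : k = n + 1 := by omega
          subst h8
          exact m3
        · obtain ⟨gc, gT, g₀, G₀, H₀, T, TH, Gt, Ht, n1, n2⟩ := l3 k h7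
          refine ⟨gc, gT, g₀, G₀, H₀, T, TH, Gt, Ht, n1, n2.sub (κ₁ := 1 / K₁ (n + 1)) m1 ?_
            hκ.le (le_of_eq ?_)⟩
          · rw [one_div, inv_mul_le_iff₀ k1]
            exact m2
          · rw [mul_one_div]
  obtain ⟨K, hK, hA⟩ := h2 N le_rfl
  exact ⟨K, μ, b, hK, fun k hk => ⟨(hb k hk).2.1, (hb k hk).2.2.1⟩, hA⟩

end Pool.TSA
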