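import Pool.Agent.H95.TS.Evr

/-!
# The class composition with several radii

`NumR`: the choice of the radii and of the exponents. `EvG`: the event `EvT` in a class where some
coordinates before the target are `2`-steep and the others are rough, if the target has a gain at
the radii which are not small.
-/

set_option autoImplicit false

namespace Pool.TSA

open Finset Real MvPolynomial
open Pool.Agent.H49.Ent Pool.Agent.H32.Dense Pool.STK Pool.KA Pool.KSAT Pool.K2S Pool.PB Pool.S6C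
open Pool.GEN Pool.CHT Pool.VFD Pool.ISO
open Pool.LBT (LSys Slo Tri ThrOf)
open Pool.LEV (Law)

/-- **The numbers of the recursion.** -/
def NumR (r : ℕ) (Sb : ℝ) : Prop :=
  ∃ θ : ℝ, 0 < θ ∧ θ ≤ 1 ∧ ∀ γ : ℝ, 0 < γ → ∃ (h₀ δ₀ ε₀ : ℝ) (N : ℕ) (V : ℕ → ℝ), 0 < h₀ ∧
    0 < δ₀ ∧ 0 < ε₀ ∧ V 0 = 1 ∧ (∀ j ≤ N, 0 < V j ∧ V j ≤ 1) ∧ (∀ j < N, V (j + 1) ≤ V j) ∧
    ∀ {ct : ℕ → Prop} {i : ℕ} {q : ℝ} {Dl : ℕ → ℝ} {t : ℕ → ℕ → ℝ}, i ≤ r → 0 < q →
      (∀ l ≤ i, q ≤ Dl l) →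
      (∀ l < i, ct l → ∀ j ≤ N, Dl l + 2 * (V j * q) ≤ t l j + ε₀ * q ∧
        t l j ≤ Dl l + Sb * (V j * q) + ε₀ * q) →
      (∀ l ≤ i, (l = i ∨ ct l) → (∀ j < N, t l (j + 1) + (V j - V (j + 1)) * q ≤ t l j) ∧
        Dl l + V N * q ≤ t l N) →
      (∀ j ≤ N, θ ≤ V j → Dl i + V j * q + γ * q ≤ t i j) →
      ∃ X : ℕ → ℕ → ℝ,
        (∀ j ≤ N, ∀ k ≤ i, (k = i ∨ ct k) → 0 ≤ X j k) ∧
        (∀ j ≤ N, ∀ k ≤ i, (k = i ∨ ct k) → ∀ l < k, ct l →
          X j k + t l j + δ₀ * q ≤ t l 0 + (if j + 1 ≤ N then t k (j + 1) else Dl k + V N * q)) ∧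
        (∀ j ≤ N, ∀ k ≤ i, (k = i ∨ ct k) → ∀ l < k, ct l → ∀ j' < j,
          X j k + t l j + δ₀ * q ≤ X j' l +
            (if j + 1 ≤ N then t k (j + 1) else Dl k + V N * q)) ∧
        (∀ j ≤ N, Dl i + q + h₀ * q + δ₀ * q ≤ X j i) ∧ Dl i + q + h₀ * q + δ₀ * q ≤ t i 0

/-- **The class composition with several radii.** -/
def EvG (r : ℕ) (Sb : ℝ) : Prop :=
  ∃ θ₁ : ℝ, 0 < θ₁ ∧ θ₁ ≤ 1 ∧ ∀ γ : ℝ, 0 < γ → ∃ (h₀ ε₀ : ℝ) (N : ℕ) (V : ℕ → ℝ), 0 < h₀ ∧
    0 < ε₀ ∧ V 0 = 1 ∧ (∀ j ≤ N, 0 < V j ∧ V j ≤ 1) ∧ ∀ (m S₀ : ℕ), 1 ≤ S₀ →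
    ∃ D : ℕ, ∀ τ₀ : ℝ, 0 < τ₀ → ∃ ε₁ : ℝ, 0 < ε₁ ∧ ∀ {S : PCl m}
      {P : List (Fin m) × Fin m → ℝ → ℝ → ℝ} {θ : ℝ} {c : ℕ → Fin m} {Pt : ℝ → ℝ → ℝ}
      {ct : ℕ → Prop} {i : ℕ} {w q Eb e : ℝ}, i ≤ r → ThrOf (chsys m θ) S P → 0 < θ →
      TmH S → Set.InjOn c (Set.Iio (r + 1)) → Law Pt → 0 < q → q ≤ w →
      (∀ j ≤ N, WinD S P θ c r Pt (w + V j * q) w S₀ Eb (ε₁ * q) (fun l => l < i ∧ ¬ ct l)) →
      Eb + τ₀ * q ≤ e → (∀ l ≤ i, lvN P c r Pt l (w + q) w + q < 1) →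
      (∀ l < i, ct l → ∀ j ≤ N,
        lvN P c r Pt l w w + 2 * (V j * q) ≤ lvN P c r Pt l (w + V j * q) w + ε₀ * q ∧
        lvN P c r Pt l (w + V j * q) w ≤ lvN P c r Pt l w w + Sb * (V j * q) + ε₀ * q) →
      (∀ j ≤ N, θ₁ ≤ V j →
        lvN P c r Pt i w w + V j * q + γ * q ≤ lvN P c r Pt i (w + V j * q) w) →
      EvT S c i D w (w + q) (lvN P c r Pt i w w + q + h₀ * q) e (τ₀ * q)
        (fun l => lvN P c r Pt l w w)

theorem evG_of {r : ℕ} {Sb : ℝ} (hr : 1 ≤ r) (hN : NumR r Sb) : EvG r Sb := by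
  obtain ⟨θ₁, hθ1, hθ2, hN⟩ := hN
  refine ⟨θ₁, hθ1, hθ2, fun γ hγ => ?_⟩
  obtain ⟨h₀, δ₀, ε₀, N, V, hh₀, hδ₀, hε₀, hV0, hVb, hVm, hN⟩ := hN γ hγ
  refine ⟨h₀, ε₀, N, V, hh₀, hε₀, hV0, hVb, fun m S₀ hS₀ => ?_⟩
  obtain ⟨D, C, hC, hev⟩ := evT_rad m r S₀ N hr hS₀
  refine ⟨D, fun τ₀ hτ₀ => ?_⟩
  have hC0 : 0 < C := by linarith only [hC]
  obtain ⟨η₁, hη₁⟩ : ∃ η₁ : ℝ, η₁ = min (min δ₀ 1) τ₀ / (C + 2) := ⟨_, rfl⟩
  have hmin : 0 < min (min δ₀ 1) τ₀ := lt_min (lt_min hδ₀ one_pos) hτ₀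
  have hη0 : 0 < η₁ := by
    rw [hη₁]
    exact div_pos hmin (by linarith only [hC0])
  have hηe : (C + 2) * η₁ = min (min δ₀ 1) τ₀ := by
    rw [hη₁]
    have : C + 2 ≠ 0 := by linarith only [hC0]
    field_simp
  have hηa : (C + 2) * η₁ ≤ δ₀ := by
    rw [hηe]
    exact (min_le_left _ _).trans (min_le_left _ _)
  have hηb : (C + 2) * η₁ ≤ 1 := by
    rw [hηe]
    exact (min_le_left _ _).trans (min_le_right _ _)
  have hηc : (C + 2) * η₁ ≤ τ₀ := by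
    rw [hηe]
    exact min_le_right _ _
  have hCη : 0 ≤ C * η₁ := by positivity
  refine ⟨η₁ / (2 * C), by positivity, ?_⟩
  intro S P θ c Pt ct i w q Eb e hi hP hθ hS hinj hPt hq hqw hWin hEe hroom hct htg
  have hw0 : 0 < w := hq.trans_le hqw
  have hlaw : ∀ l, Law (fun a w => lvN P c r Pt l a w) := by
    intro l
    rcases Nat.lt_or_ge l r with h1 | h1
    · have e1 : (fun a w => lvN P c r Pt l a w) = bet P c l := by
        funext a w
        exact if_pos h1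
      rw [e1]
      exact hP.law ((List.range l).map c, c l)
    · have e1 : (fun a w => lvN P c r Pt l a w) = Pt := by
        funext a w
        exact if_neg (by omega)
      rw [e1]
      exact hPt
  have hlow : ∀ l, w ≤ lvN P c r Pt l w w := by
    intro l
    obtain ⟨ρ, vs, e, e₀, E, sg, Q, d1, -⟩ := (hWin 0 (Nat.zero_le _)).dw
    exact d1.low hP l
  have ha1 : ∀ j ≤ N, w + V j * q < 1 := by
    intro j hj
    obtain ⟨ρ, vs, e, e₀, E, sg, Q, d1, -⟩ := (hWin j hj).da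
    exact d1.a1
  have hwq1 : w + q < 1 := by
    have := ha1 0 (Nat.zero_le _)
    rwa [hV0, one_mul] at this
  have hVq : ∀ j ≤ N, 0 < V j * q ∧ V j * q ≤ q := fun j hj =>
    ⟨mul_pos (hVb j hj).1 hq, by
      have := mul_le_mul_of_nonneg_right (hVb j hj).2 hq.le
      linarith only [this]⟩
  have hqs : ∀ {x : ℝ}, x * q ≤ 1 * q ↔ x ≤ 1 := fun {x} =>
    ⟨fun h => le_of_mul_le_mul_right h hq, fun h => mul_le_mul_of_nonneg_right h hq.le⟩
  have hlm : ∀ l ≤ i, ∀ x : ℝ, 0 ≤ x → x ≤ q → lvN P c r Pt l (w + x) w + q < 1 := by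
    intro l hl x hx hxq
    have h1 : lvN P c r Pt l (w + x) w ≤ lvN P c r Pt l (w + q) w :=
      (hlaw l).mono_a _ _ _ hw0.le (by linarith only [hx]) (by linarith only [hxq]) hwq1.le
    linarith only [h1, hroom l hl]
  have hsl : ∀ l ≤ i, ∀ x y : ℝ, 0 ≤ x → x ≤ y → y ≤ q →
      lvN P c r Pt l (w + x) w + (y - x) ≤ lvN P c r Pt l (w + y) w := by
    intro l hl x y hx hxy hyq
    have h1 := (hlaw l).slope (w + x) w (y - x) hw0.le (by linarith only [hx])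
      (by linarith only [hxy]) (by linarith only [hyq, hwq1])
    have h2 := hlm l hl x hx (hxy.trans hyq)
    have e1 : w + x + (y - x) = w + y := by ring
    rw [e1, min_eq_right (by linarith only [h2, hyq, hx])] at h1
    exact h1
  obtain ⟨X, x0, x1, x2, x3, x4⟩ := hN (ct := ct) (i := i) (q := q)
    (Dl := fun l => lvN P c r Pt l w w) (t := fun l j => lvN P c r Pt l (w + V j * q) w) hi hq
    (fun l _ => hqw.trans (hlow l)) (fun l hl hcl j hj => hct l hl hcl j hj)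
    (fun l hl _ => ⟨fun j hj => by
      have h1 := hsl l hl (V (j + 1) * q) (V j * q) (hVq (j + 1) (by omega)).1.le
        (mul_le_mul_of_nonneg_right (hVm j hj) hq.le) (hVq j (by omega)).2
      have e1 : (V j - V (j + 1)) * q = V j * q - V (j + 1) * q := by ring
      rw [e1]
      exact h1, by
      have h1 := hsl l hl 0 (V N * q) le_rfl (hVq N le_rfl).1.le (hVq N le_rfl).2
      rw [add_zero, sub_zero] at h1
      exact h1⟩) htg
  have hδ : C * (η₁ * q) ≤ δ₀ * q := by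
    have h1 := mul_le_mul_of_nonneg_right hηa hq.le
    have h2 : 0 ≤ 2 * η₁ * q := by positivity
    linarith only [h1, h2]
  have h1q := mul_le_mul_of_nonneg_right hηb hq.le
  have hτq := mul_le_mul_of_nonneg_right hηc hq.le
  have hη0q : 0 < η₁ * q := mul_pos hη0 hq
  have hCηq : 0 ≤ C * (η₁ * q) := by positivity
  have key := hev (S := S) (P := P) (θ := θ) (c := c) (Pt := Pt) (ct := ct) (i := i) (w := w)
    (Eb := Eb) (e := e) (ε := η₁ / (2 * C) * q) (η := η₁ * q) (τ := τ₀ * q) (y := h₀ * q)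
    (v := fun j => V j * q) (X := X) hi hP hθ hS hinj hPt (fun j hj => (hVq j hj).1)
    (fun j hj => mul_le_mul_of_nonneg_right (hVm j hj) hq.le) hWin (by
      have e1 : C * (η₁ / (2 * C) * q) = η₁ * q / 2 := by field_simp
      rw [e1]
      linarith only [hη0q]) (by linarith only [h1q, hη0q, hqw]) (by
      linarith only [hτq, hCηq, hEe]) (by linarith only [hτq, hη0q])
    (by positivity) {
      x0 := x0
      n1 := fun j hj k hk hkc l hl hcl => by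
        have h1 := x1 j hj k hk hkc l hl hcl
        show X j k + lvN P c r Pt l (w + V j * q) w + C * (η₁ * q) ≤
          lvN P c r Pt l (w + V 0 * q) w + (if j + 1 ≤ N then
            lvN P c r Pt k (w + V (j + 1) * q) w else lvN P c r Pt k w w + V N * q)
        linarith only [h1, hδ]
      n2 := fun j hj k hk hkc l hl hcl j' hj' => by
        have h1 := x2 j hj k hk hkc l hl hcl j' hj'
        show X j k + lvN P c r Pt l (w + V j * q) w + C * (η₁ * q) ≤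
          X j' l + (if j + 1 ≤ N then
            lvN P c r Pt k (w + V (j + 1) * q) w else lvN P c r Pt k w w + V N * q)
        linarith only [h1, hδ]
      n3 := fun j hj => by
        have h1 := x3 j hj
        show lvN P c r Pt i w w + V 0 * q + h₀ * q + C * (η₁ * q) ≤ X j i
        rw [hV0, one_mul]
        linarith only [h1, hδ]
      n4 := by
        show lvN P c r Pt i w w + V 0 * q + h₀ * q + C * (η₁ * q) ≤
          lvN P c r Pt i (w + V 0 * q) w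
        linarith only [x4, hδ, show V 0 * q = q by rw [hV0, one_mul]] }
  simp only [hV0, one_mul] at key
  exact key

end Pool.TSA
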