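import Pool.Agent.H95.TS.Frd
import Pool.Agent.H95.TS.Cor
import Pool.Agent.H95.GN.Evt

/-!
# The event `EvT` from several radii at one window

`evT_rad`: the label with gain over the re-centred ball, in a class with contact coordinates, from
the levels at the radii `w + v j` of the window `w`, from the numbers `Nrd`.
-/

set_option autoImplicit false

namespace Pool.TSA

open Finset Real MvPolynomial
open Pool.Agent.H49.Ent Pool.Agent.H32.Dense Pool.STK Pool.KA Pool.KSAT Pool.K2S Pool.PB Pool.S6C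
open Pool.GEN Pool.CHT Pool.VFD Pool.ISO
open Pool.LBT (LSys Slo Tri ThrOf)
open Pool.LEV (Law)

variable {m : ℕ}

/-- The levels at the radii, then the level of the re-centred ball. -/
noncomputable def tt (P : List (Fin m) × Fin m → ℝ → ℝ → ℝ) (c : ℕ → Fin m) (r : ℕ)
    (Pt : ℝ → ℝ → ℝ) (w : ℝ) (N : ℕ) (v : ℕ → ℝ) (j k : ℕ) : ℝ :=
  fst N (fun j => lvN P c r Pt k (w + v j) w) (lvN P c r Pt k w w + v N) j

/-- **The numbers.** -/
structure Nrd (P : List (Fin m) × Fin m → ℝ → ℝ → ℝ) (c : ℕ → Fin m) (r : ℕ) (Pt : ℝ → ℝ → ℝ)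
    (ct : ℕ → Prop) (i : ℕ) (w y δ : ℝ) (N : ℕ) (v : ℕ → ℝ) (X : ℕ → ℕ → ℝ) : Prop where
  x0 : ∀ j ≤ N, ∀ k ≤ i, (k = i ∨ ct k) → 0 ≤ X j k
  n1 : ∀ j ≤ N, ∀ k ≤ i, (k = i ∨ ct k) → ∀ l < k, ct l →
    X j k + lvN P c r Pt l (w + v j) w + δ ≤
      lvN P c r Pt l (w + v 0) w + tt P c r Pt w N v (j + 1) k
  n2 : ∀ j ≤ N, ∀ k ≤ i, (k = i ∨ ct k) → ∀ l < k, ct l → ∀ j' < j,
    X j k + lvN P c r Pt l (w + v j) w + δ ≤ X j' l + tt P c r Pt w N v (j + 1) k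
  n3 : ∀ j ≤ N, lvN P c r Pt i w w + v 0 + y + δ ≤ X j i
  n4 : lvN P c r Pt i w w + v 0 + y + δ ≤ lvN P c r Pt i (w + v 0) w

/-- **The event `EvT` from several radii.** -/
theorem evT_rad (m r S₀ N : ℕ) (hr : 1 ≤ r) (hS₀ : 1 ≤ S₀) : ∃ (D : ℕ) (C : ℝ), 1 ≤ C ∧
    ∀ {S : PCl m} {P : List (Fin m) × Fin m → ℝ → ℝ → ℝ} {θ : ℝ} {c : ℕ → Fin m}
    {Pt : ℝ → ℝ → ℝ} {ct : ℕ → Prop} {i : ℕ} {w Eb e ε η τ y : ℝ} {v : ℕ → ℝ}
    {X : ℕ → ℕ → ℝ}, i ≤ r → ThrOf (chsys m θ) S P → 0 < θ → TmH S →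
    Set.InjOn c (Set.Iio (r + 1)) → Law Pt → (∀ j ≤ N, 0 < v j) → (∀ j < N, v (j + 1) ≤ v j) →
    (∀ j ≤ N, WinD S P θ c r Pt (w + v j) w S₀ Eb ε (fun l => l < i ∧ ¬ ct l)) →
    C * ε < η → C * η ≤ w → Eb + 2 * η ≤ e → C * η ≤ τ → 0 ≤ y →
    Nrd P c r Pt ct i w y (C * η) N v X →
    EvT S c i D w (w + v 0) (lvN P c r Pt i w w + v 0 + y) e τ
      (fun l => lvN P c r Pt l w w) := by
  obtain ⟨D₁, hD₁, hcor⟩ := ev_cor m r S₀ hr hS₀
  obtain ⟨C₁, hC₁, hcor⟩ := hcor D₁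
  obtain ⟨C₀, Cf, hC₀, hfat⟩ := fat_rad D₁ r N hD₁
  obtain ⟨Cs, hCs⟩ : ∃ Cs : ℝ, Cs = (2 * (C₀ : ℝ)) ^ (r + 1) * 4 := ⟨_, rfl⟩
  have hC0r : (1 : ℝ) ≤ C₀ := by exact_mod_cast hC₀
  have hCf0 : (0 : ℝ) ≤ Cf := Nat.cast_nonneg _
  have hCs0 : 0 ≤ Cs := by rw [hCs]; positivity
  obtain ⟨Cg, hCg⟩ : ∃ Cg : ℝ, Cg = C₀ * (Cs + 1) + Cs + 4 := ⟨_, rfl⟩
  obtain ⟨Ch, hCh⟩ : ∃ Ch : ℝ, Ch = Cg + 4 := ⟨_, rfl⟩
  obtain ⟨Cx, hCx⟩ : ∃ Cx : ℝ, Cx = Cf * (Ch + 1) + 1 := ⟨_, rfl⟩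
  obtain ⟨C, hC⟩ : ∃ C : ℝ, C = C₁ + 2 * Cg + Cx + Cs + 4 := ⟨_, rfl⟩
  have hCC0 : 0 ≤ C₀ * (Cs + 1) := by positivity
  have hCgs : Cs + 4 ≤ Cg := by rw [hCg]; linarith only [hCC0]
  have hCh0 : 0 ≤ Ch := by linarith only [hCh, hCgs, hCs0]
  have hCx1 : 1 ≤ Cx := by
    have : 0 ≤ Cf * (Ch + 1) := by positivity
    linarith only [hCx, this]
  have hC1 : 1 ≤ C := by linarith only [hC, hC₁, hCgs, hCx1, hCs0]
  refine ⟨D₁ * (D₁ + 1) ^ r, C, hC1, ?_⟩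
  intro S P θ c Pt ct i w Eb e ε η τ y v X hi hP hθ hS hinj hPt hv0 hv hWin hCε hCw hEe hCτ hy hN
  have hW0 := hWin 0 (Nat.zero_le _)
  have hε0 : 0 ≤ ε := hW0.ε0
  have hη0 : 0 < η := lt_of_le_of_lt (mul_nonneg (by linarith only [hC1]) hε0) hCε
  have hC₁ε : C₁ * ε < η := by
    refine lt_of_le_of_lt (mul_le_mul_of_nonneg_right ?_ hε0) hCε
    linarith only [hC, hCgs, hCx1, hCs0]
  have hητ : η ≤ τ := by nlinarith only [hCτ, hC1, hη0]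
  have hηw : 8 * η ≤ w := by
    have : 8 ≤ C := by linarith only [hC, hC₁, hCgs, hCx1, hCs0]
    nlinarith only [hCw, this, hη0]
  have hw0 : 0 < w := by linarith only [hηw, hη0]
  obtain ⟨R, hR⟩ : ∃ R : ℕ → Prop, R = fun l => l < i ∧ ¬ ct l := ⟨_, rfl⟩
  rw [← hR] at hWin hW0
  -- the levels
  have hlv1 : ∀ l < r, ∀ a w, lvN P c r Pt l a w = bet P c l a w := fun l hl a w => if_pos hl
  have hlaw : ∀ l, Law (fun a w => lvN P c r Pt l a w) := by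
    intro l
    rcases Nat.lt_or_ge l r with h1 | h1
    · have e1 : (fun a w => lvN P c r Pt l a w) = bet P c l := by
        funext a w
        exact if_pos h1
      rw [e1]
      exact hP.law ((List.range l).map c, c l)
    · have e1 : (fun a w => lvN P c r Pt l a w) = Pt := by
        funext a w
        exact if_neg (by omega)
      rw [e1]
      exact hPt
  have hlow : ∀ l, w ≤ lvN P c r Pt l w w := by
    intro l
    obtain ⟨ρ, vs, e, e₀, E, sg, Q, d1, -⟩ := hW0.dw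
    exact d1.low hP l
  have hEb0 : 0 < Eb := by
    obtain ⟨ρ, vs, e, e₀, E, sg, Q, d1, d2⟩ := hW0.dw
    exact d1.E0.trans_le d2
  have ha1 : ∀ j ≤ N, w + v j < 1 := by
    intro j hj
    obtain ⟨ρ, vs, e, e₀, E, sg, Q, d1, -⟩ := (hWin j hj).da
    exact d1.a1
  have hslo : ∀ l ≤ r, ∀ j ≤ N, lvN P c r Pt l w w + v j ≤ lvN P c r Pt l (w + v j) w := by
    intro l hl j hj
    have h1 := (hlaw l).slope w w (v j) hw0.le le_rfl (hv0 j hj).le (ha1 j hj).le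
    have h2 := (hWin j hj).top l hl
    rwa [min_eq_right (by linarith only [h2, hEb0])] at h1
  have hmon : ∀ l, ∀ j < N, lvN P c r Pt l (w + v (j + 1)) w ≤ lvN P c r Pt l (w + v j) w :=
    fun l j hj => (hlaw l).mono_a _ _ _ hw0.le (by linarith only [hv0 (j + 1) (by omega)])
      (by linarith only [hv j hj]) (ha1 j (by omega)).le
  have hvle : ∀ j ≤ N, v j ≤ v 0 := by
    intro j
    induction j with
    | zero => exact fun _ => le_rfl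
    | succ j ih => exact fun hj => (hv j (by omega)).trans (ih (by omega))
  have hvN : ∀ j ≤ N, v N ≤ v j := by
    intro j hj
    obtain ⟨n, hn⟩ : ∃ n, N = j + n := ⟨N - j, by omega⟩
    have h1 : ∀ n, j + n ≤ N → v (j + n) ≤ v j := by
      intro n
      induction n with
      | zero => exact fun _ => le_rfl
      | succ n ih => exact fun h => (hv (j + n) (by omega)).trans (ih (by omega))
    have h2 := h1 n (by omega)
    rwa [← hn] at h2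
  have hvN0 := hv0 N le_rfl
  obtain ⟨r₀, hr₀⟩ : ∃ r₀, r₀ = min τ (v N / 2) := ⟨_, rfl⟩
  have hr₀0 : 0 < r₀ := by
    rw [hr₀]
    exact lt_min (by linarith only [hητ, hη0]) (by linarith only [hvN0])
  obtain ⟨p₁, hp₁⟩ : ∃ p₁ : ℕ → ℝ, p₁ = fun k => Pt (w + v k) w - 2 * η := ⟨_, rfl⟩
  have hlvr : ∀ a w, lvN P c r Pt r a w = Pt a w := fun a w => if_neg (lt_irrefl r)
  have hPlow : ∀ k ≤ N, w ≤ Pt (w + v k) w := by
    intro k hk
    have h1 := hslo r le_rfl k hk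
    rw [hlvr (w + v k) w] at h1
    linarith only [h1, hlow r, hv0 k hk]
  obtain ⟨K₁, μ, b, hK₁, hb, hbas⟩ := hcor (R := R) (Eb := Eb) (a := fun k => w + v k)
    (o := fun _ => w) (ε := fun _ => ε) (p' := p₁) (η := fun _ => η) (σ := fun _ => η)
    (r₀ := fun _ => r₀) N (N + 3) hP hθ hS hinj hPt hWin
    (fun k _ => ⟨by linarith only [hC₁ε, hηw, hη0], hC₁ε⟩) (fun k hk => by
      rw [hp₁]
      have := hPlow k hk
      exact ⟨by linarith only [this, hηw, hη0], by linarith only [hC₁ε, hη0]⟩)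
    (fun k _ => ⟨hη0, hr₀0⟩)
  obtain ⟨Nn, hNn⟩ : ∃ Nn : ℕ, Nn = (N + 1) * (3 * r + 1) + (N + 2) * (3 * r + 3) := ⟨_, rfl⟩
  have hb0 := hb 0 (Nat.zero_le _)
  obtain ⟨J₁, hJ₁⟩ := Pool.CHT.big (4 : ℝ) hη0
  obtain ⟨J₂, hJ₂⟩ := Pool.CHT.big (4 : ℝ) hvN0
  refine ⟨K₁ * 2 ^ Nn, μ 0, b 0, by positivity, hb0.1, fun l hl =>
    ⟨by linarith only [(hb0.2 l (by omega)).1, hητ], (hb0.2 l (by omega)).2⟩, ?_⟩
  refine Bas.mono (max J₁ J₂) (hbas (1 / 2 ^ Nn) (by positivity)) ?_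
  rintro J hJ F A hA z hz2 hz
  have hJ1 : 4 ≤ η * J := hJ₁ J (by omega)
  have hJ2 : 4 ≤ v N * J := hJ₂ J (by omega)
  have hJ0 : (0 : ℝ) ≤ J := Nat.cast_nonneg J
  have hmJ : ∀ {s t : ℝ}, s ≤ t → s * J ≤ t * J := fun h => mul_le_mul_of_nonneg_right h hJ0
  have fl : ∀ {s : ℝ}, 0 ≤ s → ((⌊s * J⌋₊ : ℕ) : ℝ) ≤ s * J ∧ s * J - 1 ≤ (⌊s * J⌋₊ : ℕ) :=
    fun hs => ⟨Nat.floor_le (mul_nonneg hs hJ0), (Nat.sub_one_lt_floor _).le⟩
  obtain ⟨W, hW⟩ : ∃ W : ℕ, W = ⌊w * J⌋₊ := ⟨_, rfl⟩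
  obtain ⟨vn, hvn⟩ : ∃ vn : ℕ → ℕ, vn = fun k => ⌊(w + v k) * J⌋₊ - W := ⟨_, rfl⟩
  have hvn' : ∀ k, ⌊(w + v k) * J⌋₊ - W = vn k := fun k => by rw [hvn]
  have hW1 := fl hw0.le
  rw [← hW] at hW1
  have hvW : ∀ k ≤ N, W ≤ ⌊(w + v k) * J⌋₊ := fun k hk => by
    rw [hW]
    exact Nat.floor_le_floor (hmJ (by linarith only [hv0 k hk]))
  have hvn1 : ∀ k ≤ N, (vn k : ℝ) ≤ v k * J + 1 ∧ v k * J - 1 ≤ vn k := by
    intro k hk
    rw [hvn]
    show ((⌊(w + v k) * J⌋₊ - W : ℕ) : ℝ) ≤ v k * J + 1 ∧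
      v k * J - 1 ≤ ((⌊(w + v k) * J⌋₊ - W : ℕ) : ℝ)
    rw [Nat.cast_sub (hvW k hk)]
    have h1 := fl (show 0 ≤ w + v k by linarith only [hw0, hv0 k hk])
    constructor <;> linarith only [h1.1, h1.2, hW1.1, hW1.2]
  have hvnm : ∀ k ≤ N, vn k ≤ vn 0 := by
    intro k hk
    rw [hvn]
    exact Nat.sub_le_sub_right (Nat.floor_le_floor (hmJ (by linarith only [hvle k hk]))) _
  have hvns : ∀ k < N, vn (k + 1) ≤ vn k := by
    intro k hk
    rw [hvn]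
    exact Nat.sub_le_sub_right (Nat.floor_le_floor (hmJ (by linarith only [hv k hk]))) _
  have hr₀J : r₀ * J ≤ τ * J ∧ r₀ * J ≤ v N / 2 * J := by
    rw [hr₀]
    exact ⟨hmJ (min_le_left _ _), hmJ (min_le_right _ _)⟩
  have hr₀v : ∀ k ≤ N, r₀ * J ≤ vn k := by
    intro k hk
    have h1 := (hvn1 k hk).2
    have h2 := hmJ (hvN k hk)
    linarith only [h1, h2, hr₀J.2, hJ2]
  -- the radii
  obtain ⟨zz, hzz⟩ : ∃ zz : ℕ → ℕ → ℕ, zz = fun k l => if k = 0 then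
      (if l ≤ 2 then z l else vn (l - 3)) else vn k := ⟨_, rfl⟩
  have hz0 : ∀ l ≤ 2, zz 0 l = z l := fun l hl => by
    rw [hzz]
    show (if (0 : ℕ) = 0 then (if l ≤ 2 then z l else vn (l - 3)) else vn 0) = z l
    rw [if_pos rfl, if_pos hl]
  have hz3 : ∀ l, zz 0 (l + 3) = vn l := fun l => by
    rw [hzz]
    show (if (0 : ℕ) = 0 then (if l + 3 ≤ 2 then z (l + 3) else vn (l + 3 - 3)) else vn 0) = vn l
    rw [if_pos rfl, if_neg (by omega), Nat.add_sub_cancel]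
  have hzk : ∀ k l, k ≠ 0 → zz k l = vn k := fun k l hk => by
    rw [hzz]
    show (if k = 0 then (if l ≤ 2 then z l else vn (l - 3)) else vn k) = vn k
    rw [if_neg hk]
  have hz2' : z 2 = vn 0 := by
    rw [hz2, hvn, hW]
  obtain ⟨B, hBA, hPB, hX⟩ := hA zz (by
    intro k hk l hl
    show r₀ * J ≤ (zz k l : ℝ) ∧ zz k l ≤ ⌊(w + v k) * J⌋₊ - ⌊w * J⌋₊
    rw [← hW, hvn' k]
    by_cases h0 : k = 0
    · subst h0
      rcases Nat.lt_or_ge 2 l with h1 | h1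
      · obtain ⟨l', rfl⟩ : ∃ l', l = l' + 3 := ⟨l - 3, by omega⟩
        rw [hz3]
        exact ⟨hr₀v l' (by omega), hvnm l' (by omega)⟩
      · rw [hz0 l h1]
        have h2 := hz l h1
        exact ⟨hr₀J.1.trans h2.1, h2.2.trans (le_of_eq hz2')⟩
    · rw [hzk k l h0]
      exact ⟨hr₀v k hk, le_rfl⟩)
  have hX' : ∀ k ≤ N, ∃ (gc gT g₀ : ℕ → ℕ)
      (G₀ : PtT F → ℕ → MvPolynomial (Option (Fin m)) ℝ)
      (H₀ : LnT F → ℕ → MvPolynomial (Option (Fin m)) ℝ)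
      (T : PtT F → ℕ → MvPolynomial (Option (Fin m)) ℝ)
      (TH : LnT F → ℕ → MvPolynomial (Option (Fin m)) ℝ)
      (Gt : PtT F → MvPolynomial (Option (Fin m)) ℝ)
      (Ht : LnT F → MvPolynomial (Option (Fin m)) ℝ),
      Sds r J (vn k) R (fun l => lvN P c r Pt l w w) (fun l => bet P c l (w + v k) w) η ε η
        gc gT g₀ ∧
      EvS F c r D₁ D₁ W (vn k) (N + 3) (zz k) ⌊(Eb + η + η) * J⌋₊ ⌊η * J⌋₊ ⌊p₁ k * J⌋₊ R
        (fun l => ⌊b k l * J⌋₊) gc gT g₀ (1 / 2 ^ Nn) B G₀ H₀ T TH Gt Ht := by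
    intro k hk
    have h1 := hX k hk
    rw [show (⌊(fun k => w + v k) k * (J : ℝ)⌋₊ - ⌊(fun _ => w) k * (J : ℝ)⌋₊) = vn k from by
      rw [hvn, hW], show (⌊(fun _ => w) k * (J : ℝ)⌋₊) = W from by rw [hW]] at h1
    exact h1
  choose! gc gT g₀ G₀ H₀ T TH Gt Ht hSd hEv using hX'
  have hE0 := hEv 0 (Nat.zero_le _)
  have hS0 := hSd 0 (Nat.zero_le _)
  obtain ⟨Φ, hΦ⟩ : ∃ Φ, Φ = G₀ 0 := ⟨_, rfl⟩
  obtain ⟨Ψ, hΨ⟩ : ∃ Ψ, Ψ = H₀ 0 := ⟨_, rfl⟩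
  rw [← hΦ, ← hΨ] at hE0
  obtain ⟨gΓ, hgΓ⟩ : ∃ gΓ : ℕ → ℕ → ℕ, gΓ = fun k l => ⌊b 0 l * J⌋₊ + vn k := ⟨_, rfl⟩
  have hgΓ' : ∀ k l, gΓ k l = ⌊b 0 l * J⌋₊ + vn k := fun k l => by rw [hgΓ]
  -- the natural numbers
  obtain ⟨h, hh⟩ : ∃ h : ℕ, h = ⌊η * J⌋₊ := ⟨_, rfl⟩
  obtain ⟨q, hq⟩ : ∃ q : ℕ, q = ⌊2 * η * J⌋₊ := ⟨_, rfl⟩
  obtain ⟨s, hs⟩ : ∃ s : ℕ → ℕ, s = fun l => (2 * C₀) ^ (l + 1) * (h + q + 1) := ⟨_, rfl⟩
  obtain ⟨H, hH⟩ : ∃ H : ℕ, H = ⌊Ch * η * J⌋₊ := ⟨_, rfl⟩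
  have hh1 : (h : ℝ) ≤ η * J := by rw [hh]; exact (fl hη0.le).1
  have hq1 : (q : ℝ) ≤ 2 * (η * J) ∧ 2 * (η * J) - 1 ≤ q := by
    rw [hq]
    have h1 := fl (show 0 ≤ 2 * η by linarith only [hη0])
    constructor <;> linarith only [h1.1, h1.2]
  have hH1 : (H : ℝ) ≤ Ch * (η * J) ∧ Ch * (η * J) - 1 ≤ H := by
    rw [hH]
    have h1 := fl (show 0 ≤ Ch * η by positivity)
    rw [mul_assoc] at h1
    rwa [mul_assoc]
  have hSH : SHie C₀ (r + 1) (C₀ * (h + q + 1)) s := by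
    refine ⟨?_, fun i _ => ?_⟩
    · rw [hs]
      show C₀ * (h + q + 1) ≤ (2 * C₀) ^ (0 + 1) * (h + q + 1)
      rw [zero_add, pow_one]
      exact Nat.mul_le_mul_right _ (by omega)
    · rw [hs]
      show C₀ * ((2 * C₀) ^ (i + 1) * (h + q + 1) + 1) ≤ (2 * C₀) ^ (i + 1 + 1) * (h + q + 1)
      have h5 : 1 ≤ (2 * C₀) ^ (i + 1) * (h + q + 1) :=
        Nat.one_le_iff_ne_zero.2 (Nat.mul_ne_zero (pow_ne_zero _ (by omega)) (by omega))
      rw [pow_succ _ (i + 1)]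
      calc C₀ * ((2 * C₀) ^ (i + 1) * (h + q + 1) + 1) ≤
          C₀ * ((2 * C₀) ^ (i + 1) * (h + q + 1) + (2 * C₀) ^ (i + 1) * (h + q + 1)) :=
            Nat.mul_le_mul_left _ (Nat.add_le_add_left h5 _)
        _ = _ := by ring
  have hsr : ∀ l ≤ r, s l ≤ s r := fun l hl => hSH.mono hC₀ hl (Nat.lt_succ_self r)
  have hsr1 : (s r : ℝ) ≤ Cs * (η * J) := by
    rw [hs]
    show ((((2 * C₀) ^ (r + 1) * (h + q + 1) : ℕ)) : ℝ) ≤ _
    push_cast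
    rw [hCs, mul_assoc]
    refine mul_le_mul_of_nonneg_left ?_ (by positivity)
    linarith only [hh1, hq1.1, hJ1]
  have hsl : ∀ l ≤ r, (s l : ℝ) ≤ Cs * (η * J) := fun l hl =>
    le_trans (by exact_mod_cast hsr l hl) hsr1
  have hCy : ((C₀ * (s r + 1) : ℕ) : ℝ) ≤ C₀ * (Cs + 1) * (η * J) := by
    push_cast
    rw [mul_assoc]
    refine mul_le_mul_of_nonneg_left ?_ (by linarith only [hC0r])
    linarith only [hsr1, hJ1]
  have hCgJ : Cg * (η * J) = C₀ * (Cs + 1) * (η * J) + Cs * (η * J) + 4 * (η * J) := by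
    rw [hCg]
    ring
  have hCC0J : 0 ≤ C₀ * (Cs + 1) * (η * J) := mul_nonneg hCC0 (by linarith only [hJ1])
  have hCsJ : 0 ≤ Cs * (η * J) := mul_nonneg hCs0 (by linarith only [hJ1])
  have hChJ : Ch * (η * J) = Cg * (η * J) + 4 * (η * J) := by
    rw [hCh]
    ring
  have hCfH : ((Cf * (H + 1) : ℕ) : ℝ) ≤ Cf * (Ch + 1) * (η * J) := by
    push_cast
    rw [mul_assoc]
    refine mul_le_mul_of_nonneg_left ?_ hCf0
    linarith only [hH1.1, hJ1]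
  have hCxJ : Cx * (η * J) = Cf * (Ch + 1) * (η * J) + η * J := by
    rw [hCx]
    ring
  have hCJ : C * η * J = C₁ * (η * J) + 2 * (Cg * (η * J)) + Cx * (η * J) + Cs * (η * J) +
      4 * (η * J) := by
    rw [hC]
    ring
  have hC₁J : 0 ≤ C₁ * (η * J) := mul_nonneg (by linarith only [hC₁]) (by linarith only [hJ1])
  have hCfJ : 0 ≤ Cf * (Ch + 1) * (η * J) :=
    mul_nonneg (by positivity) (by linarith only [hJ1])
  have hCwJ := hmJ hCw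
  rw [hCJ] at hCwJ
  have hεJ : 0 ≤ ε * J := mul_nonneg hε0 hJ0
  have hlowJ : ∀ l, w * J ≤ lvN P c r Pt l w w * J := fun l => hmJ (hlow l)
  have hsloJ : ∀ l ≤ r, ∀ j ≤ N, lvN P c r Pt l w w * J + v j * J ≤
      lvN P c r Pt l (w + v j) w * J := fun l hl j hj => by
    have h1 := hmJ (hslo l hl j hj)
    linarith only [h1]
  have hvJ : ∀ j ≤ N, 4 ≤ v j * J := fun j hj => hJ2.trans (hmJ (hvN j hj))
  have hbl : ∀ l ≤ r, (⌊b 0 l * J⌋₊ : ℝ) ≤ lvN P c r Pt l w w * J ∧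
      (lvN P c r Pt l w w * J - η * J) - 1 ≤ (⌊b 0 l * J⌋₊ : ℕ) := by
    intro l hl
    obtain ⟨h1, h2⟩ := hb0.2 l hl
    have h3 : 0 ≤ b 0 l := by linarith only [h1, hlow l, hηw, hη0]
    have h4 := fl h3
    have h5 := hmJ h1.le
    have h6 := hmJ h2.le
    have h7 := mul_nonneg hb0.1.le hJ0
    constructor <;> linarith only [h4.1, h4.2, h5, h6, h7]
  have hgΓ1 : ∀ k ≤ N, ∀ l ≤ r, (gΓ k l : ℝ) ≤ lvN P c r Pt l w w * J + v k * J + 1 ∧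
      lvN P c r Pt l w w * J + v k * J - η * J - 2 ≤ gΓ k l := by
    intro k hk l hl
    rw [hgΓ']
    push_cast
    have h1 := hbl l hl
    have h2 := hvn1 k hk
    constructor <;> linarith only [h1.1, h1.2, h2.1, h2.2]
  have hcast : ∀ {s t : ℕ}, (s : ℝ) ≤ t → s ≤ t := fun h => by exact_mod_cast h
  have hnR : ∀ l, ¬ R l → l < r → ∀ k ≤ N, lvN P c r Pt l (w + v k) w * J - η * J ≤ gT k l ∧
      (gT k l : ℝ) ≤ lvN P c r Pt l (w + v k) w * J := by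
    intro l hl hlr k hk
    have h1 := (hSd k hk).t1 l hlr hl
    have h2 := (hSd k hk).t2 l hlr hl
    rw [← hlv1 l hlr] at h1 h2
    constructor <;> linarith only [h1, h2, hεJ]
  have hRl : ∀ l, R l → l < r → ∀ k ≤ N, lvN P c r Pt l w w * J - η * J + v k * J - 1 ≤ gT k l ∧
      (gT k l : ℝ) ≤ lvN P c r Pt l w w * J + v k * J + 1 := by
    intro l hl hlr k hk
    rw [((hEv k hk).rgh l hlr hl).1]
    have h1 := (hSd k hk).c1 l hlr.le
    have h2 := (hSd k hk).c2 l hlr.le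
    have h3 := hvn1 k hk
    constructor <;> linarith only [h1, h2, h3.1, h3.2, hεJ]
  have hp₁J : ∀ k ≤ N, (⌊p₁ k * J⌋₊ : ℝ) ≤ Pt (w + v k) w * J ∧
      Pt (w + v k) w * J - 2 * (η * J) - 1 ≤ (⌊p₁ k * J⌋₊ : ℕ) := by
    intro k hk
    have h1 : 0 ≤ p₁ k := by
      rw [hp₁]
      have := hPlow k hk
      show 0 ≤ Pt (w + v k) w - 2 * η
      linarith only [this, hηw, hη0]
    have h2 := fl h1
    have h3 : p₁ k * J = Pt (w + v k) w * J - 2 * (η * J) := by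
      rw [hp₁]
      ring
    rw [h3] at h2 ⊢
    exact ⟨by linarith only [h2.1, hJ1], h2.2⟩
  have hPlJ : ∀ k ≤ N, w * J ≤ Pt (w + v k) w * J := fun k hk => hmJ (hPlow k hk)
  -- the raw data
  have hGn : ∀ (k : Fin m) (P : PtT F → MvPolynomial (Option (Fin m)) ℝ) (y : PtT F),
      DepC c 0 (Gno k J J P y - P y) := by
    intro k P y b b' _ _
    unfold Gno
    simp only [map_sub, map_add, eval_C]
    ring
  have hRw : ∀ k ≤ N, Rw F c (fun l => l < i ∧ ¬ ct l) r D₁ W (vn k) ⌊(Eb + η + η) * J⌋₊ h q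
      ⌊p₁ k * J⌋₊ (1 / 2 ^ Nn) (gT k) (gΓ k) s B (T k) (TH k)
      (fun y l => Gno (c l) J J (fun y => Φ y l) y) (fun s l => Hno (c l) (fun s => Ψ s l) s)
      (Gt k) (Ht k) := by
    intro k hk
    have H0 := hEv k hk
    rw [← hR]
    refine {
      rv := by rw [hh]; exact H0.relt
      thn := H0.thin
      gam := by
        have h1 := hE0.rad (k + 3) (by omega)
        rw [hz3] at h1
        rw [show gΓ k = fun l => ⌊b 0 l * J⌋₊ + vn k from funext (hgΓ' k)]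
        exact h1
      n1 := fun l hl hRl' => ?_
      n2 := fun l hl => ?_
      n3 := fun l hl => ?_
      n4 := fun l hl => ?_
      dG := H0.dG
      dH := H0.dH
      cG := H0.pG
      cH := H0.pH
      pos := H0.pos
      agr := H0.agr }
    · refine hcast ?_
      push_cast
      linarith only [(hRl l hRl' hl k hk).2, (hgΓ1 k hk l hl.le).2, hq1.2, hJ1]
    · refine hcast ?_
      push_cast
      by_cases hRl' : R l
      · linarith only [(hRl l hRl' hl k hk).1, (hgΓ1 k hk l hl.le).1, hq1.2, hJ1]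
      · linarith only [(hnR l hRl' hl k hk).1, (hgΓ1 k hk l hl.le).1, hq1.2, hJ1,
          hsloJ l hl.le k hk]
    · refine hcast ?_
      by_cases hRl' : R l
      · linarith only [(hRl l hRl' hl k hk).1, hsl l hl.le, hCwJ, hlowJ l, hvJ k hk, hCgJ,
          hCC0J, hC₁J, hCsJ, hCxJ, hCfJ, hJ1]
      · linarith only [(hnR l hRl' hl k hk).1, hsl l hl.le, hCwJ, hlowJ l, hvJ k hk, hCgJ,
          hCC0J, hC₁J, hCsJ, hCxJ, hCfJ, hJ1, hsloJ l hl.le k hk]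
    · refine hcast ?_
      linarith only [(hgΓ1 k hk l hl).2, hsl l hl, hCwJ, hlowJ l, hvJ k hk, hCgJ,
          hCC0J, hC₁J, hCsJ, hCxJ, hCfJ, hJ1]
  -- the sides
  obtain ⟨g, hg⟩ : ∃ g, g = sd (fun l => l < i ∧ ¬ ct l) r N (C₀ * (s r + 1)) gΓ gT s
      (fun k => ⌊p₁ k * J⌋₊) := ⟨_, rfl⟩
  have hg0 : ∀ j ≤ N, g j = ext r (fun l => mixl (fun l => l < i ∧ ¬ ct l) (gΓ j) (gT j) l - s l)
      (⌊p₁ j * J⌋₊ - C₀ * (s r + 1)) := fun j hj => by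
    rw [hg, sd, fst_le hj]
  have hg1 : g (N + 1) = fun l => gΓ N l - s l := by
    rw [hg, sd, fst_gt (Nat.lt_succ_self N)]
  have hsub : ∀ {x y : ℕ}, (x : ℝ) - y ≤ ((x - y : ℕ) : ℝ) := fun {x y} => by
    have h1 : x ≤ x - y + y := by omega
    have h2 : (x : ℝ) ≤ ((x - y : ℕ) : ℝ) + y := by exact_mod_cast h1
    linarith only [h2]
  have hnRk : ∀ k ≤ i, (k = i ∨ ct k) → ¬ (k < i ∧ ¬ ct k) := fun k hk h h' => by
    rcases h with h | h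
    · omega
    · exact h'.2 h
  have up : ∀ j ≤ N, ∀ k ≤ i, (k = i ∨ ct k) →
      (g j k : ℝ) ≤ lvN P c r Pt k (w + v j) w * J := by
    intro j hj k hk hkc
    rw [hg0 j hj]
    rcases Nat.lt_or_ge k r with h1 | h1
    · rw [ext_lt h1, mixl_neg (hnRk k hk hkc)]
      have h2 := (hnR k (by rw [hR]; exact hnRk k hk hkc) h1 j hj).2
      exact le_trans (by exact_mod_cast Nat.sub_le _ _) h2
    · rw [ext_ge h1]
      have h2 : k = r := by omega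
      rw [h2, hlvr]
      exact le_trans (by exact_mod_cast Nat.sub_le _ _) (hp₁J j hj).1
  have lo : ∀ j ≤ N, ∀ k ≤ i, (k = i ∨ ct k) →
      lvN P c r Pt k (w + v j) w * J - Cg * (η * J) ≤ g j k := by
    intro j hj k hk hkc
    rw [hg0 j hj]
    rcases Nat.lt_or_ge k r with h1 | h1
    · rw [ext_lt h1, mixl_neg (hnRk k hk hkc)]
      have h2 := (hnR k (by rw [hR]; exact hnRk k hk hkc) h1 j hj).1
      refine le_trans ?_ hsub
      linarith only [h2, hsl k h1.le, hCgJ, hCC0J, hJ1]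
    · rw [ext_ge h1]
      have h2 : k = r := by omega
      rw [h2, hlvr]
      refine le_trans ?_ hsub
      linarith only [(hp₁J j hj).2, hCy, hCgJ, hCsJ, hJ1]
  have loN : ∀ k ≤ i, (lvN P c r Pt k w w + v N) * J - Cg * (η * J) ≤ g (N + 1) k := by
    intro k hk
    rw [hg1]
    refine le_trans ?_ hsub
    linarith only [(hgΓ1 N le_rfl k (by omega)).2, hsl k (by omega), hCgJ, hCC0J, hJ1]
  have upN : ∀ k ≤ i, (g (N + 1) k : ℝ) ≤ (lvN P c r Pt k w w + v N) * J + 1 := by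
    intro k hk
    rw [hg1]
    refine le_trans (Nat.cast_le.2 (Nat.sub_le _ _)) ?_
    linarith only [(hgΓ1 N le_rfl k (by omega)).1]
  have low : ∀ j ≤ N + 1, ∀ k ≤ i, w * J - Cg * (η * J) ≤ g j k := by
    intro j hj k hk
    rcases Nat.lt_or_ge N j with h1 | h1
    · have : j = N + 1 := by omega
      subst this
      refine le_trans ?_ (loN k hk)
      linarith only [hlowJ k, hvJ N le_rfl]
    · by_cases hkc : k = i ∨ ct k
      · refine le_trans ?_ (lo j h1 k hk hkc)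
        linarith only [hlowJ k, hvJ j h1, hsloJ k (by omega) j h1]
      · have hki : k < i := by
          rcases hk.eq_or_lt with h | h
          · exact absurd (Or.inl h) hkc
          · exact h
        have hRk : k < i ∧ ¬ ct k := ⟨hki, fun h => hkc (Or.inr h)⟩
        rw [hg0 j h1, ext_lt (by omega), mixl_pos hRk]
        refine le_trans ?_ hsub
        linarith only [(hgΓ1 j h1 k (by omega)).2, hsl k (by omega), hCgJ, hCC0J, hJ1, hlowJ k,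
          hvJ j h1]
  have hlot : ∀ j ≤ N, ∀ k ≤ i, (k = i ∨ ct k) →
      tt P c r Pt w N v (j + 1) k * J - Cg * (η * J) ≤ g (j + 1) k := by
    intro j hj k hk hkc
    rcases Nat.lt_or_ge j N with h1 | h1
    · rw [tt, fst_le h1]
      exact lo (j + 1) h1 k hk hkc
    · have : j = N := by omega
      subst this
      rw [tt, fst_gt (Nat.lt_succ_self j)]
      exact loN k hk
  obtain ⟨x, hx⟩ : ∃ x : ℕ, x = ⌊(lvN P c r Pt i w w + v 0 + y + Cx * η) * J⌋₊ := ⟨_, rfl⟩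
  have hli := hlow i
  have hv00 := hv0 0 (Nat.zero_le _)
  have hx1 : (x : ℝ) ≤ (lvN P c r Pt i w w + v 0 + y) * J + Cx * (η * J) ∧
      (lvN P c r Pt i w w + v 0 + y) * J + Cx * (η * J) - 1 ≤ x := by
    rw [hx]
    have h1 := fl (show 0 ≤ lvN P c r Pt i w w + v 0 + y + Cx * η by
      have h2 : 0 ≤ Cx * η := mul_nonneg (by linarith only [hCx1]) hη0.le
      linarith only [h2, hli, hv00, hy, hw0])
    constructor <;> linarith only [h1.1, h1.2]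
  -- the conditions
  have c0 : gΓ 0 i - s i ≤ g 0 i + H := by
    refine hcast (le_trans (Nat.cast_le.2 (Nat.sub_le _ _)) ?_)
    push_cast
    linarith only [(hgΓ1 0 (Nat.zero_le _) i hi).1, lo 0 (Nat.zero_le _) i le_rfl (Or.inl rfl),
      hsloJ i hi 0 (Nat.zero_le _), hH1.2, hChJ, hJ1]
  have c1 : ∀ j ≤ N, ∀ k ≤ i, (k = i ∨ ct k) → g (j + 1) k ≤ g j k + H := by
    intro j hj k hk hkc
    refine hcast ?_
    push_cast
    have h1 := lo j hj k hk hkc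
    rcases Nat.lt_or_ge j N with h2 | h2
    · linarith only [up (j + 1) h2 k hk hkc, hmJ (hmon k j h2), h1, hH1.2, hChJ, hJ1]
    · have h3 : j = N := by omega
      subst h3
      linarith only [upN k hk, h1, hsloJ k (by omega) j le_rfl, hH1.2, hChJ, hJ1]
  have c2 : ∀ j ≤ N + 1, ∀ k ≤ i, Cf * (H + 1) ≤ g j k := by
    intro j hj k hk
    refine hcast (hCfH.trans (le_trans ?_ (low j hj k hk)))
    linarith only [hCwJ, hC₁J, hCgJ, hCC0J, hCsJ, hCxJ, hJ1]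
  have c3 : ∀ j ≤ N, ∀ k ≤ i, (k = i ∨ ct k) → ∀ l < k, ct l →
      ⌊X j k * J⌋₊ + g j l + Cf * (H + 1) ≤ g 0 l + g (j + 1) k := by
    intro j hj k hk hkc l hl hcl
    refine hcast ?_
    have h1 := hmJ (hN.n1 j hj k hk hkc l hl hcl)
    have h2 := (fl (hN.x0 j hj k hk hkc)).1
    have h3 := hlot j hj k hk hkc
    have h4 := up j hj l (by omega) (Or.inr hcl)
    have h5 := lo 0 (Nat.zero_le _) l (by omega) (Or.inr hcl)
    have h6 := hCfH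
    push_cast at h6 ⊢
    linarith only [h1, h2, h3, h4, h5, h6, hCJ, hC₁J, hCgJ, hCC0J, hCsJ, hCxJ, hJ1]
  have c4 : ∀ j ≤ N, ∀ k ≤ i, (k = i ∨ ct k) → ∀ l < k, ct l → ∀ j' < j,
      ⌊X j k * J⌋₊ + g j l + Cf * (H + 1) ≤ ⌊X j' l * J⌋₊ + g (j + 1) k := by
    intro j hj k hk hkc l hl hcl j' hj'
    refine hcast ?_
    have h1 := hmJ (hN.n2 j hj k hk hkc l hl hcl j' hj')
    have h2 := (fl (hN.x0 j hj k hk hkc)).1
    have h3 := hlot j hj k hk hkc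
    have h4 := up j hj l (by omega) (Or.inr hcl)
    have h5 := (fl (hN.x0 j' (by omega) l (by omega) (Or.inr hcl))).2
    have h6 := hCfH
    push_cast at h6 ⊢
    linarith only [h1, h2, h3, h4, h5, h6, hCJ, hC₁J, hCgJ, hCC0J, hCsJ, hCxJ, hJ1]
  have c5 : ∀ j ≤ N, x ≤ ⌊X j i * J⌋₊ := by
    intro j hj
    refine hcast ?_
    have h1 := hmJ (hN.n3 j hj)
    have h2 := (fl (hN.x0 j hj i le_rfl (Or.inl rfl))).2
    linarith only [h1, h2, hx1.1, hCJ, hC₁J, hCgJ, hCC0J, hCsJ, hCxJ, hJ1]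
  have c6 : x ≤ g 0 i := by
    refine hcast ?_
    have h1 := hmJ hN.n4
    have h2 := lo 0 (Nat.zero_le _) i le_rfl (Or.inl rfl)
    linarith only [h1, h2, hx1.1, hCJ, hC₁J, hCgJ, hCC0J, hCsJ, hCxJ, hJ1]
  have c7 : ⌊(lvN P c r Pt i w w + v 0 + y) * J⌋₊ + Cf * (H + 1) ≤ x := by
    refine hcast ?_
    have h1 := (fl (show 0 ≤ lvN P c r Pt i w w + v 0 + y by
      linarith only [hli, hv00, hy, hw0])).1
    have h6 := hCfH
    push_cast at h6 ⊢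
    linarith only [h1, h6, hx1.2, hCxJ, hJ1]
  have c8 : ∀ k ≤ N, C₀ * (s r + 1) ≤ ⌊p₁ k * J⌋₊ := by
    intro k hk
    refine hcast (hCy.trans ?_)
    linarith only [(hp₁J k hk).2, hPlJ k hk, hCwJ, hC₁J, hCgJ, hCC0J, hCsJ, hCxJ, hCfJ, hJ1]
  have c9 : s r ≤ H := by
    refine hcast ?_
    linarith only [hsr1, hH1.2, hChJ, hCgJ, hCC0J, hJ1]
  rw [hg] at c0 c1 c2 c3 c4 c6
  have c10 : ∀ ω, B ω → ∀ l ≤ i, Φ (ptr F J ω) l = Ψ (slam F W ω) l :=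
    fun ω hω l hl => hE0.cls ω hω l (by omega)
  have c11 : ∀ ω, B ω → ∀ l ≤ i, DepC c 0 (Gno (c l) J J (fun y => Φ y l) (ptr F J ω) -
      Φ (ptr F J ω) l) := fun ω _ l _ => hGn (c l) (fun y => Φ y l) (ptr F J ω)
  have c12 : (1 : ℝ) / 2 ^ Nn * 2 ^ ((N + 1) * (3 * r + 1) + (N + 2) * (3 * r + 3)) ≤ 1 := by
    rw [← hNn, one_div, inv_mul_cancel₀ (by positivity)]
  have c13 : (0 : ℝ) ≤ 1 / 2 ^ Nn := by positivity
  obtain ⟨B₂, f, fH, hLg, hFt⟩ := hfat (F := F) (c := c) (ct := ct) (i := i) (w := W)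
    (e := ⌊(Eb + η + η) * J⌋₊) (h := h) (q := q) (hh := H) (x := x)
    (p' := ⌊(lvN P c r Pt i w w + v 0 + y) * J⌋₊) (v := vn) (p := fun k => ⌊p₁ k * J⌋₊)
    (κ := 1 / 2 ^ Nn) (gT := gT) (gΓ := gΓ) (ξ := fun j k => ⌊X j k * J⌋₊) (s := s) (B := B)
    (T := T) (TH := TH) (Φ := Φ) (Γ := fun y l => Gno (c l) J J (fun y => Φ y l) y) (Ψ := Ψ)
    (ΓH := fun s l => Hno (c l) (fun s => Ψ s l) s) (Gt := Gt) (Ht := Ht) hi
    hinj hE0.ball.degG hE0.ball.degH hE0.ball.depG hE0.ball.depH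
    c10 c11 hRw c13 c12 hSH c8 c9 hvns c0 c1 c2 c3 c4 c5 c6 c7
  rw [← hNn] at hLg
  have hsubB := hLg.1
  have hDD : D₁ ≤ D₁ * (D₁ + 1) ^ r := Nat.le_mul_of_pos_right _ (by positivity)
  have hee : ⌊(Eb + η + η) * J⌋₊ ≤ ⌊e * J⌋₊ :=
    Nat.floor_le_floor (hmJ (by linarith only [hEe]))
  rw [← hW]
  have hnb : ∀ ω, ∀ b', NBx c (fun l => Gno (c l) J J (fun y => Φ y l) (ptr F J ω))
      (fun l => ⌊b 0 l * J⌋₊ + z 2) (W + z 2) (F.t ω) i b' →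
      |b' none - F.t ω| ≤ 1 / 2 ^ (W + vn 0) ∧
      ∀ l' < i, ¬ ct l' → |b' (some (c l')) - eval b' (Gno (c l') J J (fun y => Φ y l')
        (ptr F J ω))| ≤ 1 / 2 ^ (gΓ 0 l' - s l') := by
    intro ω b' hb'
    rw [hz2'] at hb'
    refine ⟨hb'.1, fun l' hl' _ => (hb'.2 l' hl').trans (inv_mono ?_)⟩
    rw [hgΓ']
    exact Nat.sub_le _ _
  refine ⟨B₂, g₀ 0, Φ, Ψ, f, fH, fun ω hω => hBA ω (hsubB ω hω), ?_, fun l hl => ⟨?_, ?_⟩,
    (hE0.ball.mono (by omega) (fun _ => hDD) le_rfl hee).sub hsubB, fun k hk => ?_, hFt.degG,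
    hFt.degH, hFt.depG, hFt.depH, hFt.pos, fun ω hω b' hb' => ?_, fun ω hω b' hb' => ?_⟩
  · have h1 := hLg.2
    rw [div_le_iff₀ (by positivity)] at h1
    calc Pe F.p A ≤ K₁ * Pe F.p B := hPB
      _ ≤ K₁ * (Pe F.p B₂ * 2 ^ Nn) := mul_le_mul_of_nonneg_left h1 hK₁.le
      _ = _ := by ring
  · exact (hmJ (by linarith only [hητ])).trans (hS0.b1 l (by omega))
  · exact hS0.b2 l (by omega)
  · have h1 := hE0.rad k (by omega)
    rw [hz0 k hk] at h1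
    exact (h1.mono (by omega) (fun _ => hDD) le_rfl hee).sub hsubB
  · exact hFt.agr ω hω b' (hnb ω b' hb').1 (hnb ω b' hb').2
  · refine (hFt.nat ω hω b' (hnb ω b' hb').1 (hnb ω b' hb').2).trans ?_
    rw [hz2', div_le_div_iff₀ (by positivity) (by positivity), ← pow_add, ← pow_add]
    refine pow_le_pow_right₀ (by norm_num) ?_
    show Cf * (H + 1) + (⌊b 0 i * J⌋₊ + vn 0) ≤ ⌊τ * J⌋₊ + (gΓ 0 i - s i)
    have h1 : s i ≤ gΓ 0 i := (hRw 0 (Nat.zero_le _)).n4 i hi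
    have h2 : Cf * (H + 1) + s i ≤ ⌊τ * J⌋₊ := by
      refine hcast ?_
      have h3 := (fl (show 0 ≤ τ by linarith only [hητ, hη0])).2
      have h4 := hmJ hCτ
      rw [hCJ] at h4
      have h5 := hsl i hi
      have h6 := hCfH
      push_cast at h6 ⊢
      linarith only [h3, h4, h5, h6, hC₁J, hCgJ, hCC0J, hCsJ, hCxJ, hJ1]
    have h3 := hgΓ' 0 i
    omega

end Pool.TSA
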