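import Pool.Agent.H95.TS.Cmr

/-!
# A fat label from chains at several radii

`Rds`: a closed ball chart, its re-centred charts, and chains with no relation at several radii.
`rad_fat`: the label of the target over boxes which are not bounded in the contact directions.
-/

set_option autoImplicit false

namespace Pool.TSA

open Finset Real MvPolynomial
open Pool.Agent.H49.Ent Pool.Agent.H32.Dense Pool.STK Pool.KA Pool.KSAT Pool.K2S Pool.PB Pool.S6C
open Pool.GEN Pool.CHT Pool.VFD Pool.ISO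

variable {m J : ℕ}

/-- **The chains at several radii** `a j`, `j ≤ N`; at `N + 1` the re-centred charts. -/
structure Rds (F : Fam m J) (c : ℕ → Fin m) (ct : ℕ → Prop) (i D D' w e h N : ℕ) (κ : ℝ)
    (a : ℕ → ℕ) (g : ℕ → ℕ → ℕ) (gc : ℕ → ℕ) (B : F.Ω → Prop)
    (Φ Γ : PtT F → ℕ → MvPolynomial (Option (Fin m)) ℝ)
    (Ψ ΓH : LnT F → ℕ → MvPolynomial (Option (Fin m)) ℝ)
    (T : ℕ → PtT F → ℕ → MvPolynomial (Option (Fin m)) ℝ)
    (TH : ℕ → LnT F → ℕ → MvPolynomial (Option (Fin m)) ℝ) : Prop where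
  inj : Set.InjOn c (Set.Iio i)
  deg : D ≤ D'
  am : ∀ j ≤ N, a (j + 1) ≤ a j
  dΦ : ∀ y l, (Φ y l).totalDegree ≤ D
  dΨ : ∀ s l, (Ψ s l).totalDegree ≤ D
  cΦ : ∀ y l, DepC c l (Φ y l)
  cΨ : ∀ s l, DepC c l (Ψ s l)
  clo : ∀ ω, B ω → ∀ l ≤ i, Φ (ptr F J ω) l = Ψ (slam F w ω) l
  gam : Nlb F c i D (a 0) w e gc B Γ ΓH
  gmt : ∀ ω, B ω → ∀ l ≤ i, DepC c 0 (Γ (ptr F J ω) l - Φ (ptr F J ω) l)
  lab : ∀ j ≤ N + 1, Nlb F c i D (a j) w e (g j) B (T j) (TH j)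
  rv : ∀ j ≤ N, RelvF F c i (a j) w (g j) D' h κ B (T j)
  lst : ∀ y, T (N + 1) y i = Γ y i
  rgh : ∀ j ≤ N, ∀ ω, B ω → ∀ l < i, ¬ ct l → T j (ptr F J ω) l = Γ (ptr F J ω) l
  rgg : ∀ l < i, ¬ ct l → g 0 l = gc l

/-- **The fat label.** -/
theorem rad_fat (D r N : ℕ) (hD : 1 ≤ D) : ∃ C : ℕ, ∀ {m J : ℕ} {F : Fam m J} {c : ℕ → Fin m}
    {ct : ℕ → Prop} {i D' w e h M : ℕ} {κ : ℝ} {a : ℕ → ℕ} {g ξ : ℕ → ℕ → ℕ} {gc : ℕ → ℕ}
    {B₀ : F.Ω → Prop} {Φ Γ : PtT F → ℕ → MvPolynomial (Option (Fin m)) ℝ}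
    {Ψ ΓH : LnT F → ℕ → MvPolynomial (Option (Fin m)) ℝ}
    {T : ℕ → PtT F → ℕ → MvPolynomial (Option (Fin m)) ℝ}
    {TH : ℕ → LnT F → ℕ → MvPolynomial (Option (Fin m)) ℝ} {x p' : ℕ}, i ≤ r →
    Rds F c ct i D D' w e h N κ a g gc B₀ Φ Γ Ψ ΓH T TH → κ * 2 ^ M ≤ 1 →
    (N + 2) * (3 * r + 3) ≤ M → gc i ≤ g 0 i + h →
    (∀ j ≤ N, ∀ k ≤ i, (k = i ∨ ct k) → g (j + 1) k ≤ g j k + h) →
    (∀ j ≤ N + 1, ∀ k ≤ i, C * (h + 1) ≤ g j k) →
    (∀ j ≤ N, ∀ k ≤ i, (k = i ∨ ct k) → ∀ l < k, ct l →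
      ξ j k + g j l + C * (h + 1) ≤ g 0 l + g (j + 1) k) →
    (∀ j ≤ N, ∀ k ≤ i, (k = i ∨ ct k) → ∀ l < k, ct l → ∀ j' < j,
      ξ j k + g j l + C * (h + 1) ≤ ξ j' l + g (j + 1) k) →
    (∀ j ≤ N, x ≤ ξ j i) → x ≤ g 0 i → p' + C * (h + 1) ≤ x →
    ∃ B₂ : F.Ω → Prop, Lg F B₀ B₂ ((N + 2) * (3 * r + 3)) ∧
      FtL F c ct i (D * (D + 1) ^ r) (a 0) w gc p' (2 ^ (C * (h + 1))) B₂ Γ
        (fun y => Φ y i + bind₁ (elm c ct (Φ y) (T 0 y) i) (T 0 y i - Φ y i))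
        (fun s => Ψ s i + bind₁ (elm c ct (Ψ s) (TH 0 s) i) (TH 0 s i - Ψ s i)) := by
  classical
  obtain ⟨Cm, hmv⟩ := lg_mv D (r + 1) hD
  obtain ⟨C₁, hcmp⟩ := nl_cmp D r hD
  obtain ⟨K, hrec⟩ := rec_dvf D r N
  obtain ⟨N', htwo⟩ := elm_two D r
  obtain ⟨t₁, ht₁⟩ := pow_unbounded_of_one_lt (1 + (r : ℝ) * (N + 1)) (one_lt_two (α := ℝ))
  obtain ⟨C₂, hC₂⟩ : ∃ C₂, C₂ = C₁ + Cm := ⟨_, rfl⟩
  obtain ⟨C, hC⟩ : ∃ C, C = K * (C₂ + 1) + C₂ + N' + t₁ := ⟨_, rfl⟩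
  refine ⟨C, ?_⟩
  intro m J F c ct i D' w e h M κ a g ξ gc B₀ Φ Γ Ψ ΓH T TH x p' hi hF hκ hM hgc hgg hCg n1 n2
    hx1 hx2 hp'
  obtain ⟨n, hn⟩ : ∃ n, n = C₂ * (h + 1) := ⟨_, rfl⟩
  have hnC : K * (n + 1) + n + (N' + t₁) ≤ C * (h + 1) := by
    have h1 : C * (h + 1) = K * ((C₂ + 1) * (h + 1)) + C₂ * (h + 1) + (N' + t₁) * (h + 1) := by
      rw [hC]
      ring
    have h2 : K * (n + 1) ≤ K * ((C₂ + 1) * (h + 1)) := by
      refine Nat.mul_le_mul_left _ ?_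
      rw [hn]
      nlinarith only [Nat.zero_le h]
    have h3 : N' + t₁ ≤ (N' + t₁) * (h + 1) := Nat.le_mul_of_pos_right _ (by omega)
    rw [h1, ← hn]
    omega
  have hC₁n : C₁ * (h + 1) ≤ n := by
    rw [hn, hC₂]
    exact Nat.mul_le_mul_right _ (Nat.le_add_right _ _)
  have hCmn : Cm * (h + 1) ≤ n := by
    rw [hn, hC₂]
    exact Nat.mul_le_mul_right _ (Nat.le_add_left _ _)
  have hdivn : ∀ {p q : ℕ}, p ≤ n → (2 : ℝ) ^ p / 2 ^ q ≤ 2 ^ n / 2 ^ q := fun hp =>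
    div_le_div_of_nonneg_right (pow_le_pow_right₀ (by norm_num) hp) (by positivity)
  have hng : ∀ j ≤ N + 1, ∀ k ≤ i, n ≤ g j k := fun j hj k hk => by
    have := hCg j hj k hk
    omega
  have ha0 : ∀ j ≤ N + 1, a j ≤ a 0 := by
    intro j
    induction j with
    | zero => exact fun _ => le_rfl
    | succ j ih => exact fun hj => (hF.am j (by omega)).trans (ih (by omega))
  -- the differences
  have loop1 : ∀ q ≤ N + 1, ∃ B : F.Ω → Prop, Lg F B₀ B (q * (2 * r + 2)) ∧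
      ∀ ω, B ω → ∀ j < q, ∀ k ≤ i, (k = i ∨ ct k) →
        ∀ b, NBx c (T j (ptr F J ω)) (g j) (a j) (F.t ω) k b →
        |eval b (T j (ptr F J ω) k) - eval b (T (j + 1) (ptr F J ω) k)| ≤
          2 ^ n / 2 ^ g (j + 1) k := by
    intro q
    induction q with
    | zero =>
      exact fun _ => ⟨B₀, (Lg.refl F B₀).mono (Nat.zero_le _),
        fun ω _ j hj => absurd hj (Nat.not_lt_zero j)⟩
    | succ q ih =>
      intro hq
      obtain ⟨B, b1, b2⟩ := ih (by omega)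
      have hMq : q * (2 * r + 2) + (2 * r + 2) ≤ M := by
        refine le_trans ?_ hM
        calc q * (2 * r + 2) + (2 * r + 2) = (q + 1) * (2 * r + 2) := by ring
          _ ≤ (N + 2) * (3 * r + 3) := Nat.mul_le_mul (by omega) (by omega)
      obtain ⟨B', k1, k2, k3⟩ := hcmp (ct := ct) (e' := e) hi hF.inj (hF.lab q (by omega))
        (hF.rv q (by omega)) ((hF.lab (q + 1) hq).rad (hF.am q (by omega))) hF.deg hκ hMq b1
        (hgg q (by omega))
      refine ⟨B', by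
        have e1 : (q + 1) * (2 * r + 2) = q * (2 * r + 2) + (2 * r + 2) := by ring
        rw [e1]
        exact k2, fun ω hω j hj => ?_⟩
      rcases Nat.lt_or_ge j q with h7 | h7
      · exact b2 ω (k1 ω hω) j h7
      · have : j = q := by omega
        subst this
        exact fun k hk hkc b hb => ((k3 ω hω).2 k hk hkc b hb).trans (hdivn hC₁n)
  obtain ⟨B₁, b1, b2⟩ := loop1 (N + 1) le_rfl
  -- the boxes
  have loop2 : ∀ q ≤ N + 1, ∃ B : F.Ω → Prop, Sub B B₁ ∧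
      Lg F B₀ B ((N + 1) * (2 * r + 2) + q * (r + 1)) ∧
      ∀ ω, B ω → ∀ j < q, ∀ b, NBx c (T 0 (ptr F J ω)) (g 0) (a 0) (F.t ω) i b → ∀ l < i,
        |b (some (c l)) - eval b (T j (ptr F J ω) l)| ≤ 2 ^ n / 2 ^ g j l := by
    intro q
    induction q with
    | zero =>
      exact fun _ => ⟨B₁, fun _ h => h, b1.mono (by omega),
        fun ω _ j hj => absurd hj (Nat.not_lt_zero j)⟩
    | succ q ih =>
      intro hq
      obtain ⟨B, d0, d1, d2⟩ := ih (by omega)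
      have hMq : (N + 1) * (2 * r + 2) + q * (r + 1) + (r + 1) ≤ M := by
        refine le_trans ?_ hM
        calc (N + 1) * (2 * r + 2) + q * (r + 1) + (r + 1) =
              (N + 1) * (2 * r + 2) + (q + 1) * (r + 1) := by ring
          _ ≤ (N + 1) * (2 * r + 2) + (N + 1) * (r + 1) :=
              Nat.add_le_add_left (Nat.mul_le_mul_right _ hq) _
          _ = (N + 1) * (3 * r + 3) := by ring
          _ ≤ (N + 2) * (3 * r + 3) := Nat.mul_le_mul_right _ (by omega)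
      obtain ⟨B', k1, k2, k3⟩ := hmv (e' := e) (Nat.lt_succ_of_le hi) hF.inj
        (hF.rv 0 (Nat.zero_le _)) hF.deg hκ hMq d1
        (((hF.lab q (by omega)).rad (ha0 q (by omega))).chn.sub d1.1)
      refine ⟨B', fun ω hω => d0 ω (k1 ω hω), by
        have e1 : (N + 1) * (2 * r + 2) + (q + 1) * (r + 1) =
          (N + 1) * (2 * r + 2) + q * (r + 1) + (r + 1) := by ring
        rw [e1]
        exact k2, fun ω hω j hj => ?_⟩
      rcases Nat.lt_or_ge j q with h7 | h7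
      · exact d2 ω (k1 ω hω) j h7
      · have : j = q := by omega
        subst this
        exact fun b hb l hl => (k3 ω hω b hb l hl).trans (hdivn hCmn)
  obtain ⟨B₂, d0, d1, d2⟩ := loop2 (N + 1) le_rfl
  -- the increments
  have hMl : (N + 1) * (2 * r + 2) + (N + 1) * (r + 1) + (2 * r + 2) ≤
      (N + 2) * (3 * r + 3) := by nlinarith only [Nat.zero_le (N * r), Nat.zero_le r]
  obtain ⟨B₃, f0, f1, f2⟩ := hcmp (ct := fun _ => False) (e' := e) hi hF.inj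
    (hF.lab 0 (Nat.zero_le _)) (hF.rv 0 (Nat.zero_le _)) hF.gam hF.deg hκ (hMl.trans hM) d1
    (fun k hk h => by
      rcases h with h | h
      · rw [h]
        exact hgc
      · exact absurd h (fun h => h))
  have hsub : Sub B₃ B₀ := f1.1
  have p2 : ∀ n : ℕ, (1 : ℝ) ≤ 2 ^ n := fun n => one_le_pow₀ (by norm_num)
  -- the derivatives
  obtain ⟨W, hW⟩ : ∃ W : PtT F → MvPolynomial (Option (Fin m)) ℝ, W = fun y =>
    T 0 y i - Φ y i := ⟨_, rfl⟩
  obtain ⟨WH, hWH⟩ : ∃ WH : LnT F → MvPolynomial (Option (Fin m)) ℝ, WH = fun s =>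
    TH 0 s i - Ψ s i := ⟨_, rfl⟩
  have hL0 := hF.lab 0 (Nat.zero_le _)
  have dW : ∀ y, (W y).totalDegree ≤ D := fun y => by
    rw [hW]
    exact (totalDegree_sub _ _).trans (max_le (hL0.chn.degG y i) (hF.dΦ y i))
  have dWH : ∀ s, (WH s).totalDegree ≤ D := fun s => by
    rw [hWH]
    exact (totalDegree_sub _ _).trans (max_le (hL0.chn.degH s i) (hF.dΨ s i))
  have cW : ∀ y, DepC c i (W y) := fun y => by
    rw [hW]
    exact dep_sub (hL0.chn.depG y i) (hF.cΦ y i)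
  have cWH : ∀ s, DepC c i (WH s) := fun s => by
    rw [hWH]
    exact dep_sub (hL0.chn.depH s i) (hF.cΨ s i)
  have hWW : ∀ ω, B₀ ω → ∀ b, NBx c (T 0 (ptr F J ω)) (g 0) (a 0) (F.t ω) i b →
      |eval b (W (ptr F J ω)) - eval b (WH (slam F w ω))| ≤ 1 / 2 ^ x := by
    intro ω hω b hb
    have h3 := hL0.agr ω hω b hb
    rw [hW, hWH]
    show |eval b (T 0 (ptr F J ω) i - Φ (ptr F J ω) i) - eval b (TH 0 (slam F w ω) i -
      Ψ (slam F w ω) i)| ≤ _
    rw [map_sub, map_sub, hF.clo ω hω i le_rfl]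
    have e1 : eval b (T 0 (ptr F J ω) i) - eval b (Ψ (slam F w ω) i) -
        (eval b (TH 0 (slam F w ω) i) - eval b (Ψ (slam F w ω) i)) =
        eval b (T 0 (ptr F J ω) i) - eval b (TH 0 (slam F w ω) i) := by ring
    rw [e1]
    exact h3.trans (inv_mono hx2)
  have htm : ∀ ω, B₀ ω → ∀ l < i, ¬ ct l →
      DepC c 0 (T 0 (ptr F J ω) l - Φ (ptr F J ω) l) := by
    intro ω hω l hl hct
    rw [hF.rgh 0 (Nat.zero_le _) ω hω l hl hct]
    exact hF.gmt ω hω l hl.le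
  obtain ⟨Mn, hMn⟩ : ∃ Mn : ℕ → ℝ, Mn = fun l =>
    ((N : ℝ) + 1) * (2 ^ g 0 l / 2 ^ x) := ⟨_, rfl⟩
  have hMn0 : ∀ l, 0 ≤ Mn l := fun l => by
    rw [hMn]
    positivity
  have der : ∀ ω, B₃ ω → ∀ l < i, ct l → ∀ b,
      NBx c (T 0 (ptr F J ω)) (g 0) (a 0) (F.t ω) i b →
      |eval b (dvf c (T 0 (ptr F J ω)) l i (W (ptr F J ω)))| ≤ Mn l := by
    intro ω hω l hl hcl b hb
    have hω0 := hsub ω hω
    have hω2 : B₂ ω := f0 ω hω
    have hω1 : B₁ ω := d0 ω hω2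
    have h1 := hrec (c := c) (ct := ct) (i := i) (T := fun j => T j (ptr F J ω)) (g := g)
      (e := fun j k => g (j + 1) k - n) (ξ := ξ) (a := a) (t := F.t ω) (n := n) hi hF.inj
      (fun j hj => (hF.lab j hj).chn.degG _) (fun j hj => (hF.lab j hj).chn.depG _)
      (fun j hj => ha0 j (by omega)) (fun l hl hct j hj => by
        rw [hF.rgh 0 (Nat.zero_le _) ω hω0 l hl hct, hF.rgh j hj ω hω0 l hl hct, sub_self]
        intro b b' _ _
        rw [map_zero, map_zero])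
      (fun j hj b hb l hl => d2 ω hω2 j (by omega) b hb l hl)
      (fun j hj l hl => hng j (by omega) l hl.le)
      (fun j hj k hk hkc b hb => by
        refine (b2 ω hω1 j (by omega) k hk hkc b hb).trans (le_of_eq ?_)
        have h2 := hng (j + 1) (by omega) k hk
        rw [div_eq_div_iff (by positivity) (by positivity), one_mul, ← pow_add]
        congr 1
        omega)
      (fun j hj k hk hkc l hl hcl => by
        have h2 := hng (j + 1) (by omega) k hk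
        have h3 := n1 j hj k hk hkc l hl hcl
        omega)
      (fun j hj k hk hkc l hl hcl j' hj' => by
        have h2 := hng (j + 1) (by omega) k hk
        have h3 := n2 j hj k hk hkc l hl hcl j' hj'
        omega)
      i le_rfl
    have e1 : W (ptr F J ω) = (∑ j ∈ range (N + 1), (T j (ptr F J ω) i -
        T (j + 1) (ptr F J ω) i)) + (Γ (ptr F J ω) i - Φ (ptr F J ω) i) := by
      have h2 := tel (fun j => T j (ptr F J ω)) i (N + 1)
      rw [← h2, hW, hF.lst]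
      ring
    rw [e1, dvf_add, dvf_time i (hF.gmt ω hω0 i le_rfl), add_zero, dvf_sum, map_sum]
    refine (Finset.abs_sum_le_sum_abs _ _).trans ?_
    have h3 : ∀ j ∈ range (N + 1), |eval b (dvf c (T 0 (ptr F J ω)) l i
        (T j (ptr F J ω) i - T (j + 1) (ptr F J ω) i))| ≤ 2 ^ g 0 l / 2 ^ x := by
      intro j hj
      rw [Finset.mem_range] at hj
      refine (h1 j (by omega) (Or.inl rfl) l hl hcl b hb).trans ?_
      exact div_le_div_of_nonneg_left (by positivity) (by positivity)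
        (pow_le_pow_right₀ (by norm_num) (hx1 j (by omega)))
    refine (Finset.sum_le_sum h3).trans (le_of_eq ?_)
    rw [Finset.sum_const, Finset.card_range, nsmul_eq_mul, hMn]
    push_cast
    ring
  -- the final number
  obtain ⟨R, hR⟩ : ∃ R : ℝ, R = 1 / 2 ^ x + ∑ l ∈ range i, Mn l / 2 ^ g 0 l := ⟨_, rfl⟩
  have hRe : ∑ l ∈ range i, Mn l / 2 ^ g 0 l = i * (((N : ℝ) + 1) / 2 ^ x) := by
    have h3 : ∀ l ∈ range i, Mn l / 2 ^ g 0 l = ((N : ℝ) + 1) / 2 ^ x := by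
      intro l _
      rw [hMn]
      field_simp
    rw [Finset.sum_congr rfl h3, Finset.sum_const, Finset.card_range, nsmul_eq_mul]
  have hRle : 2 ^ N' * R ≤ 1 / 2 ^ p' := by
    have h4 : R ≤ (1 + r * (N + 1)) / 2 ^ x := by
      have h5 : (i : ℝ) * (((N : ℝ) + 1) / 2 ^ x) ≤ r * (((N : ℝ) + 1) / 2 ^ x) := by
        refine mul_le_mul_of_nonneg_right ?_ (by positivity)
        exact_mod_cast hi
      have e1 : (1 + (r : ℝ) * (N + 1)) / 2 ^ x = 1 / 2 ^ x + r * (((N : ℝ) + 1) / 2 ^ x) := by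
        ring
      rw [hR, hRe, e1]
      exact add_le_add le_rfl h5
    calc 2 ^ N' * R ≤ 2 ^ N' * ((1 + r * (N + 1)) / 2 ^ x) :=
          mul_le_mul_of_nonneg_left h4 (by positivity)
      _ ≤ 2 ^ N' * (2 ^ t₁ / 2 ^ x) := by
          refine mul_le_mul_of_nonneg_left ?_ (by positivity)
          exact div_le_div_of_nonneg_right ht₁.le (by positivity)
      _ = 2 ^ (N' + t₁) / 2 ^ x := by
          rw [pow_add]
          ring
      _ ≤ 1 / 2 ^ p' := by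
          rw [div_le_div_iff₀ (by positivity) (by positivity), one_mul, ← pow_add]
          exact pow_le_pow_right₀ (by norm_num) (by omega)
  have hR0 : R ≤ 2 ^ N' * R := by
    have h3 : 0 ≤ R := by
      rw [hR, hRe]
      positivity
    exact le_mul_of_one_le_left h3 (p2 N')
  have hpt : ∀ ω, B₃ ω → ∀ b : Option (Fin m) → ℝ, (∀ l < i, ¬ ct l →
      |b (some (c l)) - eval b (Γ (ptr F J ω) l)| ≤ 1 / 2 ^ gc l) → ∀ l < i, ¬ ct l →
      |b (some (c l)) - eval b (T 0 (ptr F J ω) l)| ≤ 1 / 2 ^ g 0 l := by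
    intro ω hω b hb l hl hct
    rw [hF.rgh 0 (Nat.zero_le _) ω (hsub ω hω) l hl hct, hF.rgg l hl hct]
    exact hb l hl hct
  refine ⟨B₃, f1.mono hMl, ?_⟩
  have hdeg : ∀ {P Q : ℕ → MvPolynomial (Option (Fin m)) ℝ} {X Z : MvPolynomial (Option (Fin m)) ℝ},
      (∀ l, (P l).totalDegree ≤ D) → (∀ l, (Q l).totalDegree ≤ D) → X.totalDegree ≤ D →
      Z.totalDegree ≤ D → (Z + bind₁ (elm c ct P Q i) X).totalDegree ≤ D * (D + 1) ^ r := by
    intro P Q X Z hP hQ hX hZ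
    have h3 : (D + 1) ^ i ≤ (D + 1) ^ r := Nat.pow_le_pow_right (by omega) hi
    refine (totalDegree_add _ _).trans (max_le (hZ.trans ?_) ?_)
    · exact Nat.le_mul_of_pos_right _ (by positivity)
    · exact (deg_bd _ (fun o => (deg_elm hP hQ i o).trans h3) hX)
  refine ⟨fun y => hdeg (hF.dΦ y) (hL0.chn.degG y) ((totalDegree_sub _ _).trans
      (max_le (hL0.chn.degG y i) (hF.dΦ y i))) (hF.dΦ y i),
    fun s => hdeg (hF.dΨ s) (hL0.chn.degH s) ((totalDegree_sub _ _).trans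
      (max_le (hL0.chn.degH s i) (hF.dΨ s i))) (hF.dΨ s i),
    fun y => dep_add (hF.cΦ y i) (str_dep hF.inj (hF.cΦ y) (hL0.chn.depG y)
      (dep_sub (hL0.chn.depG y i) (hF.cΦ y i))),
    fun s => dep_add (hF.cΨ s i) (str_dep hF.inj (hF.cΨ s) (hL0.chn.depH s)
      (dep_sub (hL0.chn.depH s i) (hF.cΨ s i))), fun ω hω => ?_, fun ω hω b hb0 hb => ?_,
    fun ω hω b hb0 hb => ?_⟩
  · -- the own value
    have hω0 := hsub ω hω
    have h3 := elm_own (ct := ct) (Φ := Φ (ptr F J ω)) hF.inj (hL0.chn.degG (ptr F J ω))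
      (hF.cΦ _) (hL0.chn.depG _) (htm ω hω0) (cW (ptr F J ω)) (g := g 0) (a := a 0)
      (t := F.t ω) (x := bt F ω) (hL0.chn.self hω0 le_rfl) hMn0
      (fun l hl hct b hb => der ω hω l hl hct b hb)
    have h4 := (hL0.pos ω hω0).trans (inv_mono hx2)
    have e1 : W (ptr F J ω) = T 0 (ptr F J ω) i - Φ (ptr F J ω) i := by rw [hW]
    rw [e1, map_sub] at h3
    show |F.x ω (c i) - eval (bt F ω) (Φ (ptr F J ω) i + bind₁ (elm c ct (Φ (ptr F J ω))
      (T 0 (ptr F J ω)) i) (T 0 (ptr F J ω) i - Φ (ptr F J ω) i))| ≤ _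
    rw [map_add]
    refine le_trans ?_ (hR0.trans hRle)
    rw [hR]
    rw [abs_le] at h3 h4 ⊢
    constructor <;> linarith only [h3.1, h3.2, h4.1, h4.2]
  · -- the two sides
    have hω0 := hsub ω hω
    have e3 : elm c ct (Ψ (slam F w ω)) (TH 0 (slam F w ω)) i =
        elm c ct (Φ (ptr F J ω)) (TH 0 (slam F w ω)) i :=
      elm_congr fun l hl => (hF.clo ω hω0 l hl.le).symm
    have h3 := htwo (c := c) (ct := ct) (i := i) (Φ := Φ (ptr F J ω)) (T := T 0 (ptr F J ω))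
      (TH := TH 0 (slam F w ω)) (W := W (ptr F J ω)) (WH := WH (slam F w ω)) (g := g 0)
      (a := a 0) (t := F.t ω) (ε := 1 / 2 ^ x) (M := Mn) (b := b) hi
      hF.inj (hL0.chn.degG _) (hL0.chn.degH _) (dW _) (dWH _) (hF.cΦ _) (hL0.chn.depG _)
      (hL0.chn.depH _) (cW _) (cWH _) (htm ω hω0) (by positivity) hMn0
      (fun l hl y hy => hL0.chn.agr ω hω0 l hl y hy) (hWW ω hω0)
      (fun l hl hct y hy => der ω hω l hl hct y hy) hb0 (hpt ω hω b hb)
    rw [← hR] at h3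
    have e1 : W (ptr F J ω) = T 0 (ptr F J ω) i - Φ (ptr F J ω) i := by rw [hW]
    have e2 : WH (slam F w ω) = TH 0 (slam F w ω) i - Ψ (slam F w ω) i := by rw [hWH]
    rw [e1, e2] at h3
    show |eval b (Φ (ptr F J ω) i + bind₁ (elm c ct (Φ (ptr F J ω)) (T 0 (ptr F J ω)) i)
      (T 0 (ptr F J ω) i - Φ (ptr F J ω) i)) - eval b (Ψ (slam F w ω) i +
      bind₁ (elm c ct (Ψ (slam F w ω)) (TH 0 (slam F w ω)) i)
        (TH 0 (slam F w ω) i - Ψ (slam F w ω) i))| ≤ _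
    rw [map_add, map_add, e3, hF.clo ω hω0 i le_rfl, add_sub_add_left_eq_sub]
    rw [hF.clo ω hω0 i le_rfl] at h3
    exact h3.trans hRle
  · -- the increments
    have hω0 := hsub ω hω
    obtain ⟨-, q5⟩ := f2 ω hω
    obtain ⟨y, hy⟩ : ∃ y, y = str c ct (Φ (ptr F J ω)) (T 0 (ptr F J ω)) i b := ⟨_, rfl⟩
    have hyn : y none = b none := by rw [hy]; exact str_none i b
    have hyb : NBx c (T 0 (ptr F J ω)) (g 0) (a 0) (F.t ω) i y := by
      refine ⟨by rw [hyn]; exact hb0, fun l hl => ?_⟩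
      by_cases hct : ct l
      · have h3 := hgt_str_ct (Φ := Φ (ptr F J ω)) hF.inj (hL0.chn.depG (ptr F J ω)) hl hct b
        rw [← hy] at h3
        unfold hgt at h3
        rw [h3, abs_zero]
        positivity
      · have h3 := hgt_str_rg (T := T 0 (ptr F J ω)) hF.inj (hF.cΦ (ptr F J ω)) hl hct
          (htm ω hω0 l hl hct) b
        rw [← hy] at h3
        unfold hgt at h3
        rw [h3]
        exact hpt ω hω b hb l hl hct
    have h3 := q5 i le_rfl (Or.inl rfl) y hyb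
    have h4 := hF.gmt ω hω0 i le_rfl y b hyn fun l hl => absurd hl (Nat.not_lt_zero l)
    rw [map_sub, map_sub] at h4
    have e1 : eval b (Φ (ptr F J ω) i + bind₁ (elm c ct (Φ (ptr F J ω)) (T 0 (ptr F J ω)) i)
        (T 0 (ptr F J ω) i - Φ (ptr F J ω) i)) - eval b (Γ (ptr F J ω) i) =
        eval y (T 0 (ptr F J ω) i) - eval y (Γ (ptr F J ω) i) := by
      have e2 : eval b (bind₁ (elm c ct (Φ (ptr F J ω)) (T 0 (ptr F J ω)) i)
          (T 0 (ptr F J ω) i - Φ (ptr F J ω) i)) =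
          eval y (T 0 (ptr F J ω) i - Φ (ptr F J ω) i) := by
        rw [eval_bd, hy]
        rfl
      rw [map_add, e2, map_sub]
      linarith only [h4]
    show |eval b (Φ (ptr F J ω) i + bind₁ (elm c ct (Φ (ptr F J ω)) (T 0 (ptr F J ω)) i)
      (T 0 (ptr F J ω) i - Φ (ptr F J ω) i)) - eval b (Γ (ptr F J ω) i)| ≤ _
    rw [e1]
    refine h3.trans (div_le_div_of_nonneg_right ?_ (by positivity))
    refine pow_le_pow_right₀ (by norm_num) ?_
    omega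

end Pool.TSA
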