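import Pool.Agent.H95.TS.Rdl

/-!
# The fat label from the raw data at several radii
-/

set_option autoImplicit false

namespace Pool.TSA

open Finset Real MvPolynomial
open Pool.Agent.H49.Ent Pool.Agent.H32.Dense Pool.STK Pool.KA Pool.KSAT Pool.K2S Pool.PB Pool.S6C
open Pool.GEN Pool.CHT Pool.VFD Pool.ISO

variable {m J : ℕ}

/-- The first `N + 1` objects, then the last one. -/
def fst {α : Type} (N : ℕ) (f : ℕ → α) (x : α) (j : ℕ) : α := if j ≤ N then f j else x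

theorem fst_le {α : Type} {N j : ℕ} {f : ℕ → α} {x : α} (h : j ≤ N) : fst N f x j = f j :=
  if_pos h

theorem fst_gt {α : Type} {N j : ℕ} {f : ℕ → α} {x : α} (h : N < j) : fst N f x j = x :=
  if_neg (by omega)

/-- **The sides.** -/
noncomputable def sd (R : ℕ → Prop) (r N y : ℕ) (gΓ gT : ℕ → ℕ → ℕ) (s p : ℕ → ℕ) : ℕ → ℕ → ℕ :=
  fst N (fun j => ext r (fun l => mixl R (gΓ j) (gT j) l - s l) (p j - y)) (fun l => gΓ N l - s l)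

/-- **The fat label.** -/
theorem fat_rad (D r N : ℕ) (hD : 1 ≤ D) : ∃ C₀ C : ℕ, 1 ≤ C₀ ∧ ∀ {m J : ℕ} {F : Fam m J}
    {c : ℕ → Fin m} {ct : ℕ → Prop} {i w e h q hh x p' : ℕ} {v p : ℕ → ℕ} {κ : ℝ}
    {gT gΓ ξ : ℕ → ℕ → ℕ} {s : ℕ → ℕ} {B : F.Ω → Prop}
    {T : ℕ → PtT F → ℕ → MvPolynomial (Option (Fin m)) ℝ}
    {TH : ℕ → LnT F → ℕ → MvPolynomial (Option (Fin m)) ℝ}
    {Φ Γ : PtT F → ℕ → MvPolynomial (Option (Fin m)) ℝ}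
    {Ψ ΓH : LnT F → ℕ → MvPolynomial (Option (Fin m)) ℝ}
    {Gt : ℕ → PtT F → MvPolynomial (Option (Fin m)) ℝ}
    {Ht : ℕ → LnT F → MvPolynomial (Option (Fin m)) ℝ}, i ≤ r →
    Set.InjOn c (Set.Iio (r + 1)) →
    (∀ y l, (Φ y l).totalDegree ≤ D) → (∀ s l, (Ψ s l).totalDegree ≤ D) →
    (∀ y l, DepC c l (Φ y l)) → (∀ s l, DepC c l (Ψ s l)) →
    (∀ ω, B ω → ∀ l ≤ i, Φ (ptr F J ω) l = Ψ (slam F w ω) l) →
    (∀ ω, B ω → ∀ l ≤ i, DepC c 0 (Γ (ptr F J ω) l - Φ (ptr F J ω) l)) →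
    (∀ k ≤ N, Rw F c (fun l => l < i ∧ ¬ ct l) r D w (v k) e h q (p k) κ (gT k) (gΓ k) s B
      (T k) (TH k) Γ ΓH (Gt k) (Ht k)) → 0 ≤ κ →
    κ * 2 ^ ((N + 1) * (3 * r + 1) + (N + 2) * (3 * r + 3)) ≤ 1 →
    SHie C₀ (r + 1) (C₀ * (h + q + 1)) s → (∀ k ≤ N, C₀ * (s r + 1) ≤ p k) → s r ≤ hh →
    (∀ j < N, v (j + 1) ≤ v j) →
    gΓ 0 i - s i ≤ sd (fun l => l < i ∧ ¬ ct l) r N (C₀ * (s r + 1)) gΓ gT s p 0 i + hh →
    (∀ j ≤ N, ∀ k ≤ i, (k = i ∨ ct k) →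
      sd (fun l => l < i ∧ ¬ ct l) r N (C₀ * (s r + 1)) gΓ gT s p (j + 1) k ≤
        sd (fun l => l < i ∧ ¬ ct l) r N (C₀ * (s r + 1)) gΓ gT s p j k + hh) →
    (∀ j ≤ N + 1, ∀ k ≤ i, C * (hh + 1) ≤
      sd (fun l => l < i ∧ ¬ ct l) r N (C₀ * (s r + 1)) gΓ gT s p j k) →
    (∀ j ≤ N, ∀ k ≤ i, (k = i ∨ ct k) → ∀ l < k, ct l →
      ξ j k + sd (fun l => l < i ∧ ¬ ct l) r N (C₀ * (s r + 1)) gΓ gT s p j l + C * (hh + 1) ≤
        sd (fun l => l < i ∧ ¬ ct l) r N (C₀ * (s r + 1)) gΓ gT s p 0 l +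
        sd (fun l => l < i ∧ ¬ ct l) r N (C₀ * (s r + 1)) gΓ gT s p (j + 1) k) →
    (∀ j ≤ N, ∀ k ≤ i, (k = i ∨ ct k) → ∀ l < k, ct l → ∀ j' < j,
      ξ j k + sd (fun l => l < i ∧ ¬ ct l) r N (C₀ * (s r + 1)) gΓ gT s p j l + C * (hh + 1) ≤
        ξ j' l + sd (fun l => l < i ∧ ¬ ct l) r N (C₀ * (s r + 1)) gΓ gT s p (j + 1) k) →
    (∀ j ≤ N, x ≤ ξ j i) →
    x ≤ sd (fun l => l < i ∧ ¬ ct l) r N (C₀ * (s r + 1)) gΓ gT s p 0 i →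
    p' + C * (hh + 1) ≤ x →
    ∃ (B₂ : F.Ω → Prop) (f : PtT F → MvPolynomial (Option (Fin m)) ℝ)
      (fH : LnT F → MvPolynomial (Option (Fin m)) ℝ),
      Lg F B B₂ ((N + 1) * (3 * r + 1) + (N + 2) * (3 * r + 3)) ∧
      FtL F c ct i (D * (D + 1) ^ r) (w + v 0) w (fun l => gΓ 0 l - s l) p'
        (2 ^ (C * (hh + 1))) B₂ Γ f fH := by
  obtain ⟨C₀, hC₀, hmix⟩ := mix_all D r hD
  obtain ⟨C, hfat⟩ := rad_fat D r N hD
  refine ⟨C₀, C, hC₀, ?_⟩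
  intro m J F c ct i w e h q hh x p' v p κ gT gΓ ξ s B T TH Φ Γ Ψ ΓH Gt Ht hi hc dΦ dΨ cΦ cΨ clo
    gmt hW hκ0 hκ hs hp hsh hv n0 n1 n2 n3 n4 n5 n6 n7
  have hc' : Set.InjOn c (Set.Iio i) := hc.mono fun y hy => by
    rw [Set.mem_Iio] at hy ⊢
    omega
  obtain ⟨B', b1, b2⟩ := hmix hi hc hW hκ0 (le_trans (mul_le_mul_of_nonneg_left
    (pow_le_pow_right₀ (by norm_num) (Nat.le_add_right _ _)) hκ0) hκ) hs hp
  obtain ⟨g, hg⟩ : ∃ g, g = sd (fun l => l < i ∧ ¬ ct l) r N (C₀ * (s r + 1)) gΓ gT s p :=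
    ⟨_, rfl⟩
  rw [← hg] at n0 n1 n2 n3 n4 n6
  have hg0 : ∀ j ≤ N, g j = ext r (fun l => mixl (fun l => l < i ∧ ¬ ct l) (gΓ j) (gT j) l - s l)
      (p j - C₀ * (s r + 1)) := fun j hj => by
    rw [hg, sd, fst_le hj]
  have hg1 : g (N + 1) = fun l => gΓ N l - s l := by
    rw [hg, sd, fst_gt (Nat.lt_succ_self N)]
  obtain ⟨Tt, hTt⟩ : ∃ Tt : ℕ → PtT F → ℕ → MvPolynomial (Option (Fin m)) ℝ, Tt =
      fst N (fun j y => ext r (mixl (fun l => l < i ∧ ¬ ct l) (Γ y) (T j y)) (Gt j y)) Γ :=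
    ⟨_, rfl⟩
  obtain ⟨TtH, hTtH⟩ : ∃ TtH : ℕ → LnT F → ℕ → MvPolynomial (Option (Fin m)) ℝ, TtH =
      fst N (fun j y => ext r (mixl (fun l => l < i ∧ ¬ ct l) (ΓH y) (TH j y)) (Ht j y)) ΓH :=
    ⟨_, rfl⟩
  have hT0 : ∀ j ≤ N, Tt j = fun y => ext r (mixl (fun l => l < i ∧ ¬ ct l) (Γ y) (T j y))
      (Gt j y) := fun j hj => by
    rw [hTt, fst_le hj]
  have hT1 : Tt (N + 1) = Γ := by
    rw [hTt, fst_gt (Nat.lt_succ_self N)]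
  have hH0 : ∀ j ≤ N, TtH j = fun y => ext r (mixl (fun l => l < i ∧ ¬ ct l) (ΓH y) (TH j y))
      (Ht j y) := fun j hj => by
    rw [hTtH, fst_le hj]
  have hH1 : TtH (N + 1) = ΓH := by
    rw [hTtH, fst_gt (Nat.lt_succ_self N)]
  obtain ⟨a, ha⟩ : ∃ a : ℕ → ℕ, a = fun j => w + v (min j N) := ⟨_, rfl⟩
  have ha0 : ∀ j ≤ N, a j = w + v j := fun j hj => by
    rw [ha]
    show w + v (min j N) = _
    rw [min_eq_left hj]
  have ha1 : a (N + 1) = w + v N := by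
    rw [ha]
    show w + v (min (N + 1) N) = _
    rw [min_eq_right (Nat.le_succ N)]
  obtain ⟨κ', hκ'⟩ : ∃ κ' : ℝ, κ' = κ * 2 ^ ((N + 1) * (3 * r + 1)) := ⟨_, rfl⟩
  rw [← hκ'] at b2
  have hF : Rds F c ct i D D w (e + 2 * s r + q) hh N κ' a g (fun l => gΓ 0 l - s l) B' Φ Γ Ψ ΓH
      Tt TtH := {
    inj := hc'
    deg := le_rfl
    am := fun j hj => by
      rcases Nat.lt_or_ge j N with h1 | h1
      · rw [ha0 j hj, ha0 (j + 1) h1]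
        have := hv j h1
        omega
      · have : j = N := by omega
        subst this
        rw [ha1, ha0 j le_rfl]
    dΦ := dΦ
    dΨ := dΨ
    cΦ := cΦ
    cΨ := cΨ
    clo := fun ω hω => clo ω (b1.1 ω hω)
    gam := by
      rw [ha0 0 (Nat.zero_le _)]
      exact (b2 0 (Nat.zero_le _)).2.2
    gmt := fun ω hω => gmt ω (b1.1 ω hω)
    lab := fun j hj => by
      rcases Nat.lt_or_ge N j with h1 | h1
      · have : j = N + 1 := by omega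
        subst this
        rw [ha1, hg1, hT1, hH1]
        exact (b2 N le_rfl).2.2
      · rw [ha0 j h1, hg0 j h1, hT0 j h1, hH0 j h1]
        exact (b2 j h1).1
    rv := fun j hj => by
      rw [ha0 j hj, hg0 j hj, hT0 j hj]
      exact relvF_exp (b2 j hj).2.1 hsh
    lst := fun y => by rw [hT1]
    rgh := fun j hj ω hω l hl hct => by
      rw [hT0 j hj]
      show ext r (mixl (fun l => l < i ∧ ¬ ct l) (Γ (ptr F J ω)) (T j (ptr F J ω)))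
        (Gt j (ptr F J ω)) l = _
      rw [ext_lt (by omega), mixl_pos ⟨hl, hct⟩]
    rgg := fun l hl hct => by
      rw [hg0 0 (Nat.zero_le _), ext_lt (by omega), mixl_pos ⟨hl, hct⟩] }
  obtain ⟨B₂, d1, d2⟩ := hfat hi hF (M := (N + 2) * (3 * r + 3)) (by
      rw [hκ', mul_assoc, ← pow_add]
      exact hκ) le_rfl n0 n1 n2 n3 n4 n5 n6 n7
  rw [ha0 0 (Nat.zero_le _)] at d2
  exact ⟨B₂, _, _, b1.step d1.1 d1.2, d2⟩

end Pool.TSA
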