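import Pool.Agent.H95.TS.Fin
import Pool.Agent.H2.GEN.Mix

/-!
# Mixed chains at one radius

`mix_rad`: at one radius, from a chain with no relation and a label of the next coordinate, and from
re-centred charts, the mixed chain with the label.
-/

set_option autoImplicit false

namespace Pool.TSA

open Finset Real MvPolynomial
open Pool.Agent.H49.Ent Pool.Agent.H32.Dense Pool.STK Pool.KA Pool.KSAT Pool.K2S Pool.PB Pool.S6C
open Pool.GEN Pool.CHT Pool.VFD Pool.ISO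

variable {m J : ℕ}

theorem nbx_cg {c : ℕ → Fin m} {G G' : ℕ → MvPolynomial (Option (Fin m)) ℝ} {g g' : ℕ → ℕ}
    {a i : ℕ} {t : ℝ} {b : Option (Fin m) → ℝ} (h1 : ∀ l < i, G' l = G l)
    (h2 : ∀ l < i, g' l = g l) (h : NBx c G' g' a t i b) : NBx c G g a t i b :=
  ⟨h.1, fun l hl => by
    have h3 := h.2 l hl
    rwa [h1 l hl, h2 l hl] at h3⟩

theorem nlp_cg {g g' : ℕ → ℕ} {i : ℕ} (h : ∀ l ≤ i, g' l = g l) (l : ℕ) :
    nlp g' l i = nlp g l i := by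
  unfold nlp
  rw [h i le_rfl, Finset.sup_congr rfl fun j hj => h j (Finset.mem_Icc.1 hj).2]

/-- The chain depends on its first coordinates only. -/
theorem ok_cg {F : Fam m J} {c : ℕ → Fin m} {i D a w e : ℕ} {g g' : ℕ → ℕ} {B : F.Ω → Prop}
    {G G' : PtT F → ℕ → MvPolynomial (Option (Fin m)) ℝ}
    {H H' : LnT F → ℕ → MvPolynomial (Option (Fin m)) ℝ} (h : ChOK F c i (fun _ => D) a w e g B G H)
    (h1 : ∀ y, ∀ l < i, G' y l = G y l) (h2 : ∀ s, ∀ l < i, H' s l = H s l)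
    (h3 : ∀ l < i, g' l = g l) (dG : ∀ y l, (G' y l).totalDegree ≤ D)
    (dH : ∀ s l, (H' s l).totalDegree ≤ D) (cG : ∀ y l, DepC c l (G' y l))
    (cH : ∀ s l, DepC c l (H' s l)) : ChOK F c i (fun _ => D) a w e g' B G' H' := by
  refine ⟨dG, dH, cG, cH, fun ω hω l hl => ?_, fun ω hω l hl b hb => ?_,
    fun ω hω l hl b hb l' hl' => ?_⟩
  · rw [h1 _ l hl, h3 l hl]
    exact h.pos ω hω l hl
  · rw [h1 _ l hl, h2 _ l hl, h3 l hl]
    exact h.agr ω hω l hl b (nbx_cg (fun l' hl' => h1 _ l' (by omega))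
      (fun l' hl' => h3 l' (by omega)) hb)
  · rw [h1 _ l hl, nlp_cg (g := g) (g' := g') (fun j hj => h3 j (by omega)) l']
    exact h.lip ω hω l hl b (nbx_cg (fun l' hl' => h1 _ l' (by omega))
      (fun l' hl' => h3 l' (by omega)) hb) l' hl'

theorem rv_cg {F : Fam m J} {c : ℕ → Fin m} {i a w : ℕ} {g g' : ℕ → ℕ} {D h : ℕ} {κ : ℝ}
    {B₀ : F.Ω → Prop} {G G' : PtT F → ℕ → MvPolynomial (Option (Fin m)) ℝ}
    (hR : RelvF F c i a w g D h κ B₀ G) (h1 : ∀ y, ∀ l < i, G' y l = G y l)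
    (h3 : ∀ l < i, g' l = g l) : RelvF F c i a w g' D h κ B₀ G' := by
  intro B' hB hP Dx Dl M k1 k2 k3 k4 hM k5 k6
  obtain ⟨B'', l1, l2, l3⟩ := hR B' hB hP Dx Dl M k1 k2 k3 k4 hM k5 (fun ω hω b hb =>
    k6 ω hω b (nbx_cg (fun l hl => (h1 _ l hl).symm) (fun l hl => (h3 l hl).symm) hb))
  exact ⟨B'', l1, l2, fun ω hω b hb => l3 ω hω b (nbx_cg (fun l hl => h1 _ l hl)
    (fun l hl => h3 l hl) hb)⟩

/-- **One radius.** -/
theorem mix_rad (D r : ℕ) (hD : 1 ≤ D) : ∃ C : ℕ, 1 ≤ C ∧ ∀ {m J : ℕ} {F : Fam m J}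
    {c : ℕ → Fin m} {R : ℕ → Prop} {a w e h q p : ℕ} {κ : ℝ} {gT gΓ s : ℕ → ℕ}
    {B : F.Ω → Prop} {T Γ : PtT F → ℕ → MvPolynomial (Option (Fin m)) ℝ}
    {TH ΓH : LnT F → ℕ → MvPolynomial (Option (Fin m)) ℝ}
    {Gt : PtT F → MvPolynomial (Option (Fin m)) ℝ} {Ht : LnT F → MvPolynomial (Option (Fin m)) ℝ},
    Set.InjOn c (Set.Iio (r + 1)) → RelvF F c r a w gT D h κ B T → 0 ≤ κ →
    κ * 2 ^ (3 * r + 1) ≤ 1 → ChOK F c r (fun _ => D) a w e gT B T TH →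
    ChOK F c (r + 1) (fun _ => D) a w e gΓ B Γ ΓH → (∀ l < r, R l → gT l ≤ gΓ l + q) →
    (∀ l < r, gΓ l ≤ gT l + q) → SHie C (r + 1) (C * (h + q + 1)) s → (∀ l < r, s l ≤ gT l) →
    (∀ l ≤ r, s l ≤ gΓ l) → (∀ y, (Gt y).totalDegree ≤ D) → (∀ s, (Ht s).totalDegree ≤ D) →
    (∀ y, DepC c r (Gt y)) → (∀ s, DepC c r (Ht s)) →
    (∀ ω, B ω → ∀ b, NBx c (T (ptr F J ω)) gT a (F.t ω) r b →
      |eval b (Gt (ptr F J ω)) - eval b (Ht (slam F w ω))| ≤ 1 / 2 ^ p) →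
    ∃ B' : F.Ω → Prop, Sub B' B ∧ Pe F.p B / 2 ^ (3 * r + 1) ≤ Pe F.p B' ∧
      ChOK F c r (fun _ => D) a w (e + 2 * s r + q) (fun l => mixl R gΓ gT l - s l) B'
        (fun y => mixl R (Γ y) (T y)) (fun x => mixl R (ΓH x) (TH x)) ∧
      ChOK F c (r + 1) (fun _ => D) a w (e + 2 * s r + q) (fun l => gΓ l - s l) B' Γ ΓH ∧
      (∀ ω, B' ω → ∀ b, NBx c (mixl R (Γ (ptr F J ω)) (T (ptr F J ω)))
        (fun l => mixl R gΓ gT l - s l) a (F.t ω) r b →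
        |eval b (Gt (ptr F J ω)) - eval b (Ht (slam F w ω))| ≤
          2 ^ (C * (s r + 1)) / 2 ^ p) ∧
      RelvF F c r a w (fun l => mixl R gΓ gT l - s l) D (s r) (κ * 2 ^ (3 * r + 1)) B'
        (fun y => mixl R (Γ y) (T y)) := by
  obtain ⟨Ca, hCa, hmix⟩ := mix_chains D D r hD
  obtain ⟨Cm, hmv⟩ := lg_mv D (r + 1) hD
  obtain ⟨c₀, D₁, hD₁, hdil⟩ := nbx_dil (r + 1) (fun _ => D)
  obtain ⟨C, hC⟩ : ∃ C, C = Ca + c₀ + Cm * D₁ := ⟨_, rfl⟩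
  refine ⟨C, by omega, ?_⟩
  intro m J F c R a w e h q p κ gT gΓ s B T Γ TH ΓH Gt Ht hc hR hκ0 hκ hT hΓ n1 n2 hs n3 n4 dG dH
    cG cH hagr
  have hc' : Set.InjOn c (Set.Iio r) := hc.mono fun x hx => lt_trans hx (Nat.lt_succ_self r)
  have e4 : (4 : ℝ) ^ r = 2 ^ (2 * r) := by
    rw [pow_mul]
    norm_num
  have hs' : SHie Ca (r + 1) (Ca * (h + q + 1)) s :=
    ⟨(Nat.mul_le_mul_right _ (by omega)).trans hs.zero,
      fun i hi => (Nat.mul_le_mul_right _ (by omega)).trans (hs.suc i hi)⟩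
  obtain ⟨B₁, b1, b2, b3, b4, -, b6⟩ := hmix (R := R) (κT := κ) (κ := κ * 4 ^ r) (e := e)
    (h := h) (q := q) (gN := gΓ) (N := Γ) (NH := ΓH) hc
    (hR.mono (by rw [max_self]) le_rfl) (by positivity) le_rfl
    (by
      refine le_trans ?_ hκ
      rw [e4]
      refine mul_le_mul_of_nonneg_left ?_ hκ0
      calc (2 : ℝ) * 2 ^ (2 * r) = 2 ^ (2 * r + 1) := by rw [pow_succ]; ring
        _ ≤ _ := pow_le_pow_right₀ (by norm_num) (by omega)) hT hΓ hΓ n1 n2 hs' n3 n4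
  have hL : Lg F B₁ B₁ 0 := Lg.refl F B₁
  obtain ⟨B₂, d1, d2, d3⟩ := hmv (e' := e) (N := r + 1) (Nat.lt_succ_self r) hc' b6 (le_refl D)
    (by
      refine le_trans (le_of_eq ?_) hκ
      rw [e4, mul_assoc, ← pow_add]
      congr 2
      ring) (by omega) hL (hT.sub b1)
  have hP2 : Pe F.p B / 2 ^ (3 * r + 1) ≤ Pe F.p B₂ := by
    have h1 := d2.2
    rw [div_le_iff₀ (by positivity)] at h1 ⊢
    calc Pe F.p B ≤ 4 ^ r * Pe F.p B₁ := b2
      _ ≤ 4 ^ r * (Pe F.p B₂ * 2 ^ (0 + (r + 1))) := mul_le_mul_of_nonneg_left h1 (by positivity)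
      _ = Pe F.p B₂ * 2 ^ (3 * r + 1) := by
          rw [e4]
          have e5 : 3 * r + 1 = 2 * r + (0 + (r + 1)) := by ring
          rw [e5, pow_add 2 (2 * r)]
          ring
  refine ⟨B₂, fun ω hω => b1 ω (d1 ω hω), hP2, b3.sub d1, b4.sub d1, fun ω hω b hb => ?_, ?_⟩
  · have h1 := hdil (c := c) (i := r) (G := T (ptr F J ω))
      (Q := Gt (ptr F J ω) - Ht (slam F w ω)) (g := gT) (a := a) (t := F.t ω)
      (M := 1 / 2 ^ p) (Cm * (s r + 1)) (Nat.lt_succ_self r) hc' (hT.degG _) (hT.depG _)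
      (dep_sub (cG _) (cH _)) ((totalDegree_sub _ _).trans (max_le (dG _) (dH _)))
      (by positivity) (fun y hy => by
        rw [map_sub]
        exact hagr ω (b1 ω (d1 ω hω)) y hy) b hb.1 (d3 ω hω b hb)
    rw [map_sub, mul_one_div] at h1
    refine h1.trans (div_le_div_of_nonneg_right (pow_le_pow_right₀ (by norm_num) ?_)
      (by positivity))
    have h2 : C * (s r + 1) = Ca * (s r + 1) + c₀ * (s r + 1) + Cm * (s r + 1) * D₁ := by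
      rw [hC]
      ring
    have h3 : c₀ ≤ c₀ * (s r + 1) := Nat.le_mul_of_pos_right _ (by omega)
    rw [h2]
    omega
  · have h1 := b6.sub (κ₁ := 1 / 2 ^ (0 + (r + 1))) (κ₂ := κ * 2 ^ (3 * r + 1)) d1 (by
      have h2 := d2.2
      calc 1 / 2 ^ (0 + (r + 1)) * Pe F.p B₁ = Pe F.p B₁ / 2 ^ (0 + (r + 1)) := by ring
        _ ≤ _ := h2) (by positivity) (by
      rw [mul_one_div, le_div_iff₀ (by positivity), e4, mul_assoc, ← pow_add]
      refine le_of_eq ?_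
      congr 2
      ring)
    exact h1

end Pool.TSA
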