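import Pool.Agent.H95.TS.Mxr

/-!
# Mixed chains at several radii, on one event

`mix_all`: at finitely many radii, from chains with no relation and labels of the next coordinate,
and from re-centred charts, the mixed chains with the labels, on one event.
-/

set_option autoImplicit false

namespace Pool.TSA

open Finset Real MvPolynomial
open Pool.Agent.H49.Ent Pool.Agent.H32.Dense Pool.STK Pool.KA Pool.KSAT Pool.K2S Pool.PB Pool.S6C
open Pool.GEN Pool.CHT Pool.VFD Pool.ISO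

variable {m J : ℕ}

/-- **The raw data** at the radius `w + v`. -/
structure Rw (F : Fam m J) (c : ℕ → Fin m) (R : ℕ → Prop) (r D w v e h q p : ℕ) (κ : ℝ)
    (gT gΓ s : ℕ → ℕ) (B : F.Ω → Prop) (T : PtT F → ℕ → MvPolynomial (Option (Fin m)) ℝ)
    (TH : LnT F → ℕ → MvPolynomial (Option (Fin m)) ℝ)
    (Γ : PtT F → ℕ → MvPolynomial (Option (Fin m)) ℝ)
    (ΓH : LnT F → ℕ → MvPolynomial (Option (Fin m)) ℝ)
    (Gt : PtT F → MvPolynomial (Option (Fin m)) ℝ)
    (Ht : LnT F → MvPolynomial (Option (Fin m)) ℝ) : Prop where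
  rv : RelvF F c r (w + v) w gT D h κ B T
  thn : ChOK F c r (fun _ => D) (w + v) w e gT B T TH
  gam : ChOK F c (r + 1) (fun _ => D) (w + v) w e gΓ B Γ ΓH
  n1 : ∀ l < r, R l → gT l ≤ gΓ l + q
  n2 : ∀ l < r, gΓ l ≤ gT l + q
  n3 : ∀ l < r, s l ≤ gT l
  n4 : ∀ l ≤ r, s l ≤ gΓ l
  dG : ∀ y, (Gt y).totalDegree ≤ D
  dH : ∀ s, (Ht s).totalDegree ≤ D
  cG : ∀ y, DepC c r (Gt y)
  cH : ∀ s, DepC c r (Ht s)
  pos : ∀ ω, B ω → |F.x ω (c r) - eval (bt F ω) (Gt (ptr F J ω))| ≤ 1 / 2 ^ p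
  agr : ∀ ω, B ω → ∀ b, NBx c (T (ptr F J ω)) gT (w + v) (F.t ω) r b →
    |eval b (Gt (ptr F J ω)) - eval b (Ht (slam F w ω))| ≤ 1 / 2 ^ p

/-- The labels, with the last one. -/
def ext {α : Type} (r : ℕ) (f : ℕ → α) (x : α) (l : ℕ) : α := if l < r then f l else x

theorem ext_lt {α : Type} {r l : ℕ} {f : ℕ → α} {x : α} (h : l < r) : ext r f x l = f l :=
  if_pos h

theorem ext_ge {α : Type} {r l : ℕ} {f : ℕ → α} {x : α} (h : r ≤ l) : ext r f x l = x :=
  if_neg (by omega)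

/-- The target. -/
theorem nlb_of {F : Fam m J} {c : ℕ → Fin m} {i r D a w e p : ℕ} {g : ℕ → ℕ}
    {B : F.Ω → Prop} {T : PtT F → ℕ → MvPolynomial (Option (Fin m)) ℝ}
    {TH : LnT F → ℕ → MvPolynomial (Option (Fin m)) ℝ}
    {Gt : PtT F → MvPolynomial (Option (Fin m)) ℝ} {Ht : LnT F → MvPolynomial (Option (Fin m)) ℝ}
    (hi : i ≤ r) (h : ChOK F c r (fun _ => D) a w e g B T TH)
    (dG : ∀ y, (Gt y).totalDegree ≤ D) (dH : ∀ s, (Ht s).totalDegree ≤ D)
    (cG : ∀ y, DepC c r (Gt y)) (cH : ∀ s, DepC c r (Ht s))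
    (pos : ∀ ω, B ω → |F.x ω (c r) - eval (bt F ω) (Gt (ptr F J ω))| ≤ 1 / 2 ^ p)
    (agr : ∀ ω, B ω → ∀ b, NBx c (T (ptr F J ω)) g a (F.t ω) r b →
      |eval b (Gt (ptr F J ω)) - eval b (Ht (slam F w ω))| ≤ 1 / 2 ^ p) :
    Nlb F c i D a w e (ext r g p) B (fun y => ext r (T y) (Gt y))
      (fun s => ext r (TH s) (Ht s)) := by
  have dG' : ∀ y l, (ext r (T y) (Gt y) l).totalDegree ≤ D := by
    intro y l
    rcases Nat.lt_or_ge l r with h1 | h1
    · rw [ext_lt h1]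
      exact h.degG y l
    · rw [ext_ge h1]
      exact dG y
  have dH' : ∀ s l, (ext r (TH s) (Ht s) l).totalDegree ≤ D := by
    intro y l
    rcases Nat.lt_or_ge l r with h1 | h1
    · rw [ext_lt h1]
      exact h.degH y l
    · rw [ext_ge h1]
      exact dH y
  have cG' : ∀ y l, DepC c l (ext r (T y) (Gt y) l) := by
    intro y l
    rcases Nat.lt_or_ge l r with h1 | h1
    · rw [ext_lt h1]
      exact h.depG y l
    · rw [ext_ge h1]
      exact (cG y).mono h1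
  have cH' : ∀ s l, DepC c l (ext r (TH s) (Ht s) l) := by
    intro y l
    rcases Nat.lt_or_ge l r with h1 | h1
    · rw [ext_lt h1]
      exact h.depH y l
    · rw [ext_ge h1]
      exact (cH y).mono h1
  refine ⟨ok_cg (h.mono hi (fun _ => le_rfl) le_rfl le_rfl) (fun y l hl => ext_lt (by omega))
    (fun y l hl => ext_lt (by omega)) (fun l hl => ext_lt (by omega)) dG' dH' cG' cH',
    fun ω hω => ?_, fun ω hω b hb => ?_⟩
  · rcases Nat.lt_or_ge i r with h1 | h1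
    · show |_ - eval _ (ext r (T (ptr F J ω)) (Gt (ptr F J ω)) i)| ≤ 1 / 2 ^ ext r g p i
      rw [ext_lt h1, ext_lt h1]
      exact h.pos ω hω i h1
    · have h2 : i = r := by omega
      subst h2
      show |_ - eval _ (ext i (T (ptr F J ω)) (Gt (ptr F J ω)) i)| ≤ 1 / 2 ^ ext i g p i
      rw [ext_ge le_rfl, ext_ge le_rfl]
      exact pos ω hω
  · have hb' : NBx c (T (ptr F J ω)) g a (F.t ω) i b :=
      nbx_cg (fun l hl => ext_lt (by omega)) (fun l hl => ext_lt (by omega)) hb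
    show |eval b (ext r (T (ptr F J ω)) (Gt (ptr F J ω)) i) -
      eval b (ext r (TH (slam F w ω)) (Ht (slam F w ω)) i)| ≤ 1 / 2 ^ ext r g p i
    rcases Nat.lt_or_ge i r with h1 | h1
    · rw [ext_lt h1, ext_lt h1, ext_lt h1]
      exact h.agr ω hω i h1 b hb'
    · have h2 : i = r := by omega
      subst h2
      rw [ext_ge le_rfl, ext_ge le_rfl, ext_ge le_rfl]
      exact agr ω hω b hb'

/-- **All radii.** -/
theorem mix_all (D r : ℕ) (hD : 1 ≤ D) : ∃ C : ℕ, 1 ≤ C ∧ ∀ {m J : ℕ} {F : Fam m J}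
    {c : ℕ → Fin m} {R : ℕ → Prop} {i w e h q N : ℕ} {v p : ℕ → ℕ} {κ : ℝ} {gT gΓ : ℕ → ℕ → ℕ}
    {s : ℕ → ℕ} {B : F.Ω → Prop} {T : ℕ → PtT F → ℕ → MvPolynomial (Option (Fin m)) ℝ}
    {TH : ℕ → LnT F → ℕ → MvPolynomial (Option (Fin m)) ℝ}
    {Γ : PtT F → ℕ → MvPolynomial (Option (Fin m)) ℝ}
    {ΓH : LnT F → ℕ → MvPolynomial (Option (Fin m)) ℝ}
    {Gt : ℕ → PtT F → MvPolynomial (Option (Fin m)) ℝ}
    {Ht : ℕ → LnT F → MvPolynomial (Option (Fin m)) ℝ}, i ≤ r →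
    Set.InjOn c (Set.Iio (r + 1)) → (∀ k ≤ N, Rw F c R r D w (v k) e h q (p k) κ (gT k) (gΓ k) s B
      (T k) (TH k) Γ ΓH (Gt k) (Ht k)) → 0 ≤ κ → κ * 2 ^ ((N + 1) * (3 * r + 1)) ≤ 1 →
    SHie C (r + 1) (C * (h + q + 1)) s → (∀ k ≤ N, C * (s r + 1) ≤ p k) →
    ∃ B' : F.Ω → Prop, Lg F B B' ((N + 1) * (3 * r + 1)) ∧ ∀ k ≤ N,
      Nlb F c i D (w + v k) w (e + 2 * s r + q)
        (ext r (fun l => mixl R (gΓ k) (gT k) l - s l) (p k - C * (s r + 1))) B'
        (fun y => ext r (mixl R (Γ y) (T k y)) (Gt k y))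
        (fun x => ext r (mixl R (ΓH x) (TH k x)) (Ht k x)) ∧
      RelvF F c i (w + v k) w
        (ext r (fun l => mixl R (gΓ k) (gT k) l - s l) (p k - C * (s r + 1))) D (s r)
        (κ * 2 ^ ((N + 1) * (3 * r + 1))) B' (fun y => ext r (mixl R (Γ y) (T k y)) (Gt k y)) ∧
      Nlb F c i D (w + v k) w (e + 2 * s r + q) (fun l => gΓ k l - s l) B' Γ ΓH := by
  obtain ⟨C, hC, hmix⟩ := mix_rad D r hD
  refine ⟨C, hC, ?_⟩
  intro m J F c R i w e h q N v p κ gT gΓ s B T TH Γ ΓH Gt Ht hi hc hW hκ0 hκ hs hp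
  have hc' : Set.InjOn c (Set.Iio r) := hc.mono fun x hx => lt_trans hx (Nat.lt_succ_self r)
  have key : ∀ n ≤ N + 1, ∃ B' : F.Ω → Prop, Lg F B B' (n * (3 * r + 1)) ∧ ∀ k < n,
      Nlb F c i D (w + v k) w (e + 2 * s r + q)
        (ext r (fun l => mixl R (gΓ k) (gT k) l - s l) (p k - C * (s r + 1))) B'
        (fun y => ext r (mixl R (Γ y) (T k y)) (Gt k y))
        (fun x => ext r (mixl R (ΓH x) (TH k x)) (Ht k x)) ∧
      RelvF F c i (w + v k) w
        (ext r (fun l => mixl R (gΓ k) (gT k) l - s l) (p k - C * (s r + 1))) D (s r)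
        (κ * 2 ^ (n * (3 * r + 1))) B' (fun y => ext r (mixl R (Γ y) (T k y)) (Gt k y)) ∧
      Nlb F c i D (w + v k) w (e + 2 * s r + q) (fun l => gΓ k l - s l) B' Γ ΓH := by
    intro n
    induction n with
    | zero =>
      exact fun _ => ⟨B, (Lg.refl F B).mono (Nat.zero_le _), fun k hk => absurd hk
        (Nat.not_lt_zero k)⟩
    | succ n ih =>
      intro hn
      obtain ⟨B', b1, b2⟩ := ih (by omega)
      have H := hW n (by omega)
      have e1 : (n + 1) * (3 * r + 1) = n * (3 * r + 1) + (3 * r + 1) := by ring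
      have hrv := H.rv.sub (κ₁ := 1 / 2 ^ (n * (3 * r + 1))) (κ₂ := κ * 2 ^ (n * (3 * r + 1)))
        b1.1 (by
          calc 1 / 2 ^ (n * (3 * r + 1)) * Pe F.p B = Pe F.p B / 2 ^ (n * (3 * r + 1)) := by ring
            _ ≤ _ := b1.2) (by positivity) (by
          rw [mul_one_div, le_div_iff₀ (by positivity)])
      obtain ⟨B₁, d1, d2, d3, d4, d5, d6⟩ := hmix hc hrv (by positivity) (by
          rw [mul_assoc, ← pow_add, ← e1]
          refine le_trans (mul_le_mul_of_nonneg_left ?_ hκ0) hκ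
          exact pow_le_pow_right₀ (by norm_num) (Nat.mul_le_mul_right _ hn)) (H.thn.sub b1.1)
        (H.gam.sub b1.1) H.n1 H.n2 hs H.n3 H.n4 H.dG H.dH H.cG H.cH
        (fun ω hω => H.agr ω (b1.1 ω hω))
      rw [mul_assoc, ← pow_add, ← e1] at d6
      refine ⟨B₁, by rw [e1]; exact b1.step d1 d2, fun k hk => ?_⟩
      rcases Nat.lt_or_ge k n with h7 | h7
      · obtain ⟨q1, q2, q3⟩ := b2 k h7
        refine ⟨q1.sub d1, q2.sub (κ₁ := 1 / 2 ^ (3 * r + 1)) d1 (by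
          calc 1 / 2 ^ (3 * r + 1) * Pe F.p B' = Pe F.p B' / 2 ^ (3 * r + 1) := by ring
            _ ≤ _ := d2) (by positivity) (by
          rw [mul_one_div, le_div_iff₀ (by positivity), mul_assoc, ← pow_add, ← e1]), q3.sub d1⟩
      · have : k = n := by omega
        subst this
        have hpp := hp k (by omega)
        refine ⟨nlb_of hi d3 H.dG H.dH H.cG H.cH (fun ω hω =>
          (H.pos ω (b1.1 ω (d1 ω hω))).trans (inv_mono (Nat.sub_le _ _))) (fun ω hω b hb => ?_),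
          ?_, ⟨d4.mono (by omega) (fun _ => le_rfl) le_rfl le_rfl, fun ω hω => d4.pos ω hω i
            (by omega), fun ω hω b hb => d4.agr ω hω i (by omega) b hb⟩⟩
        · refine (d5 ω hω b hb).trans (le_of_eq ?_)
          rw [div_eq_div_iff (by positivity) (by positivity), one_mul, ← pow_add]
          congr 1
          omega
        · exact rv_cg (relvF_pre d6 hc' d3.depG hi) (fun y l hl => ext_lt (by omega))
            (fun l hl => ext_lt (by omega))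
  obtain ⟨B', b1, b2⟩ := key (N + 1) le_rfl
  exact ⟨B', b1, fun k hk => b2 k (by omega)⟩

end Pool.TSA
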