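import Pool.Agent.H90.ISO.StD
import Pool.Agent.H95.TS.Evg

/-!
# Thin or steep, for all coordinates

`PkT.step_all`: at almost every good window where the coordinates before `i` are thin or `2`-steep,
a gain of the coordinate `i` at one scale makes the threshold over the fattest boxes `2`-steep.
`PkT.thin_steep_all`: at almost every good window all coordinates are thin or `2`-steep.
-/

set_option autoImplicit false

namespace Pool.TSA

open MeasureTheory Set Filter Topology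
open Pool.Agent.H49.Ent Pool.Agent.H32.Dense Pool.STK Pool.KA Pool.KSAT Pool.K2S Pool.PB
open Pool.GEN Pool.S6C Pool.STAT Pool.CHT Pool.GRW Pool.ONE Pool.STA Pool.PKG
open Pool.LEV (Law)
open Pool.QNT (affB_of)
open Pool.STR (StK DPS dia_ae ThinAt SteepAt StaAt StaD)
open Pool.NMS (LeAt StepAt Gn)

/-- **A steep coordinate has gain.** -/
theorem sp_of {PN P : ℝ → ℝ → ℝ} (hN : Law PN) {g : ℝ} (hg0 : 0 < g) (hg1 : g < 1)
    (hle : LeAt PN P g) (hs : SteepAt 2 P g) (hd : DifferentiableAt ℝ (fun a => PN a a) g)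
    (hd' : DifferentiableAt ℝ (fun a => P a a) g) (heq : PN g g = P g g)
    (hsl : deriv (fun a => PN a a) g = deriv (fun a => P a a) g) {η : ℝ} (hη : 0 < η) :
    ∀ᶠ q in 𝓝[>] (0 : ℝ), ∀ a w : ℝ, g - 4 * q ≤ w → w ≤ a → a ≤ g + 4 * q →
      PN w w + 2 * (a - w) ≤ PN a w + η * q := by
  obtain ⟨e, he⟩ : ∃ e : ℝ, e = η / 8 := ⟨_, rfl⟩
  have he0 : 0 < e := by rw [he]; positivity
  obtain ⟨r₁, hr₁, h1⟩ := affB_of hd (M := 8) (e := e) (by norm_num) he0
  obtain ⟨r₂, hr₂, h2⟩ := affB_of hd' (M := 8) (e := e) (by norm_num) he0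
  obtain ⟨r₃, hr₃, h3⟩ := hs e he0
  obtain ⟨ρ, hρ, h4⟩ := hle
  rw [hsl] at h1
  obtain ⟨s, hs'⟩ : ∃ s : ℝ, s = deriv (fun a => P a a) g := ⟨_, rfl⟩
  rw [← hs'] at h1 h2
  refine ev_pos ⟨min (min (min r₁ r₂) (min r₃ (ρ / 8))) (min (g / 8) ((1 - g) / 8)),
    lt_min (lt_min (lt_min hr₁ hr₂) (lt_min hr₃ (by linarith))) (lt_min (by linarith)
      (by linarith)), fun q hq hq' a w hw hwa ha => ?_⟩
  have m1 := ((hq'.trans_le (min_le_left _ _)).trans_le (min_le_left _ _)).trans_le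
    (min_le_left _ _)
  have m2 := ((hq'.trans_le (min_le_left _ _)).trans_le (min_le_left _ _)).trans_le
    (min_le_right _ _)
  have m3 := ((hq'.trans_le (min_le_left _ _)).trans_le (min_le_right _ _)).trans_le
    (min_le_left _ _)
  have m4 := ((hq'.trans_le (min_le_left _ _)).trans_le (min_le_right _ _)).trans_le
    (min_le_right _ _)
  have m5 := (hq'.trans_le (min_le_right _ _)).trans_le (min_le_left _ _)
  have m6 := (hq'.trans_le (min_le_right _ _)).trans_le (min_le_right _ _)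
  rcases hwa.eq_or_lt with h5 | h5
  · subst h5
    have : 0 < η * q := by positivity
    rw [sub_self]
    linarith
  obtain ⟨ε, hε⟩ : ∃ ε : ℝ, ε = min (e * q / (2 + |s|)) (min (a - w) q) := ⟨_, rfl⟩
  have hs0 : 0 ≤ |s| := abs_nonneg s
  have heq0 : 0 < e * q := by positivity
  have hε0 : 0 < ε := by
    rw [hε]
    exact lt_min (div_pos heq0 (by linarith)) (lt_min (by linarith) hq)
  have hε1 : (2 + |s|) * ε ≤ e * q := by
    have h6 : ε ≤ e * q / (2 + |s|) := by rw [hε]; exact min_le_left _ _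
    rw [le_div_iff₀ (by linarith)] at h6
    linarith
  have hε2 : ε ≤ a - w := by rw [hε]; exact (min_le_right _ _).trans (min_le_left _ _)
  have hε3 : ε ≤ q := by rw [hε]; exact (min_le_right _ _).trans (min_le_right _ _)
  obtain ⟨a', w', k1, k2, k3, k4, k5, k6⟩ := h4 a w ε (by linarith) h5 (by linarith) hε0
  have j1 := h3 q hq m3 a' w' (by linarith) k5 (by linarith)
  have j2 := (abs_le.1 (h2 q hq m2 w' (by
    rw [abs_le]
    constructor <;> linarith))).1
  have j3 := (abs_le.1 (h1 q hq m1 w (by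
    rw [abs_le]
    constructor <;> linarith))).2
  have j4 : PN a' w' ≤ PN a' w := hN.mono_w _ _ _ (by linarith) k4 (by linarith) (by linarith)
  have j5 : PN a' w ≤ PN a w := hN.mono_a _ _ _ (by linarith) (by linarith) k2 (by linarith)
  have j6 : s * (w - w') ≤ |s| * ε := by
    refine (mul_le_mul_of_nonneg_right (le_abs_self s) (by linarith)).trans ?_
    exact mul_le_mul_of_nonneg_left (by linarith) hs0
  have e1 : (fun a => P a a) g = P g g := rfl
  have e2 : (fun a => PN a a) g = PN g g := rfl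
  have e3 : e * q * 8 = η * q := by rw [he]; ring
  have j7 : s * (w - g) - s * (w' - g) = s * (w - w') := by ring
  linarith

/-- The local numbers near a window, with steep coordinates. -/
structure Lcs (L T : ℕ → ℝ → ℝ → ℝ) (Sl : ℕ → ℝ) (ct : ℕ → Prop) (N i : ℕ) (g η q : ℝ) :
    Prop where
  dL : ∀ l ≤ N, ∀ x : ℝ, |x - g| ≤ 4 * q → |L l x x - L l g g - Sl l * (x - g)| ≤ η * q
  dT : ∀ l ≤ N, ∀ x : ℝ, |x - g| ≤ 4 * q → |T l x x - L l g g - Sl l * (x - g)| ≤ η * q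
  rg : ∀ l < i, ¬ ct l → ∀ a w : ℝ, g - 4 * q ≤ w → w ≤ a → a ≤ g + 4 * q →
    L l a w ≤ T l w w + (a - w) + η * q
  sp : ∀ l < i, ct l → ∀ a w : ℝ, g - 4 * q ≤ w → w ≤ a → a ≤ g + 4 * q →
    L l w w + 2 * (a - w) ≤ L l a w + η * q

theorem lcs_ev {L T : ℕ → ℝ → ℝ → ℝ} {Sl : ℕ → ℝ} {ct : ℕ → Prop} {N i : ℕ} {g : ℝ}
    (hg0 : 0 < g) (hg1 : g < 1) (hN : ∀ l, Law (L l)) (hi : i ≤ N)
    (h1 : ∀ l ≤ N, DifferentiableAt ℝ (fun a => L l a a) g ∧
      deriv (fun a => L l a a) g = Sl l)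
    (h2 : ∀ l ≤ N, DifferentiableAt ℝ (fun a => T l a a) g ∧
      deriv (fun a => T l a a) g = Sl l ∧ T l g g = L l g g)
    (h3 : ∀ l < i, ¬ ct l → ThinAt (L l) (T l) g)
    (h4 : ∀ l < i, ct l → LeAt (L l) (T l) g ∧ SteepAt 2 (T l) g)
    {η : ℝ} (hη : 0 < η) : ∀ᶠ q in 𝓝[>] (0 : ℝ), Lcs L T Sl ct N i g η q := by
  classical
  have a0 := lcl_ev (ct := ct) (i := 0) h1 h2 (fun l hl => absurd hl (Nat.not_lt_zero l))
    (fun l hl => absurd hl (Nat.not_lt_zero l)) hη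
  have a3 : ∀ᶠ q in 𝓝[>] (0 : ℝ), ∀ l ∈ Finset.range i, ¬ ct l → ∀ a w : ℝ, g - 4 * q ≤ w →
      w ≤ a → a ≤ g + 4 * q → L l a w ≤ T l w w + (a - w) + η * q := by
    rw [Finset.eventually_all]
    intro l hl
    by_cases hc : ct l
    · exact Eventually.of_forall fun q h => absurd hc h
    · obtain ⟨r₀, hr₀, h⟩ := h3 l (Finset.mem_range.1 hl) hc η hη
      exact ev_pos ⟨r₀, hr₀, fun r hr hr' _ a w b1 b2 b3 => h r hr hr' a w (by linarith) b2
        (by linarith)⟩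
  have a4 : ∀ᶠ q in 𝓝[>] (0 : ℝ), ∀ l ∈ Finset.range i, ct l → ∀ a w : ℝ, g - 4 * q ≤ w →
      w ≤ a → a ≤ g + 4 * q → L l w w + 2 * (a - w) ≤ L l a w + η * q := by
    rw [Finset.eventually_all]
    intro l hl
    by_cases hc : ct l
    · rw [Finset.mem_range] at hl
      obtain ⟨k1, k2⟩ := h4 l hl hc
      obtain ⟨b1, b2⟩ := h1 l (by omega)
      obtain ⟨b3, b4, b5⟩ := h2 l (by omega)
      have h5 := sp_of (hN l) hg0 hg1 k1 k2 b1 b3 b5.symm (b2.trans b4.symm) hη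
      filter_upwards [h5] with q hq _ a w c1 c2 c3
      exact hq a w c1 c2 c3
    · exact Eventually.of_forall fun q h => absurd h hc
  filter_upwards [a0, a3, a4] with q b0 b3 b4
  exact ⟨b0.dL, b0.dT, fun l hl => b3 l (Finset.mem_range.2 hl),
    fun l hl => b4 l (Finset.mem_range.2 hl)⟩

/-- No gain at all, if the slope of the coordinate is small. -/
theorem no_gain' {L T : ℕ → ℝ → ℝ → ℝ} {Sl : ℕ → ℝ} {ct : ℕ → Prop} {N i : ℕ} {g δ η q t : ℝ}
    (hL : Law (L i)) (h : Lcs L T Sl ct N i g η q) (hi : i ≤ N) (hg : 4 * q ≤ g)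
    (hg1 : 4 * q ≤ 1 - g) (hq : 0 < q) (ht : |t - g| ≤ 2 * q) (hs : Sl i + 2 * η < 1 + δ) :
    ¬ Gn (L i) (T i) δ t q := by
  intro hG
  have ht' := abs_le.1 ht
  have k1 := (abs_le.1 (h.dL i hi (t + q) (by
    rw [abs_le]
    constructor <;> linarith))).2
  have k2 := (abs_le.1 (h.dT i hi t (by
    rw [abs_le]
    constructor <;> linarith))).1
  have k3 : L i (t + q) t ≤ L i (t + q) (t + q) :=
    hL.mono_w _ _ _ (by linarith) (by linarith) le_rfl (by linarith)
  unfold Gn at hG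
  have k4 : (Sl i + 2 * η) * q < (1 + δ) * q := mul_lt_mul_of_pos_right hs hq
  have k5 : Sl i * (t + q - g) = Sl i * q + Sl i * (t - g) := by ring
  linarith

end Pool.TSA
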