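import Pool.Agent.H95.TS.Ths
import Pool.Agent.H54.SLW.Ts
import Pool.Agent.H60.GEN.KpL

/-!
# Consequences of thin or steep, with no hypothesis on the other coordinates

`iso_or_steep`: at almost every good window the target is iso or `2`-steep over the fattest boxes.
`gap_all`: a coordinate whose slope is smaller than two is thin, and not static if its slope is larger
than one. `slope_all`: the slope of a static coordinate is at most one or at least two.
-/

set_option autoImplicit false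

namespace Pool.PKG

open MeasureTheory Set Filter Topology
open Pool.Agent.H49.Ent Pool.Agent.H32.Dense Pool.STK Pool.KA Pool.KSAT Pool.K2S Pool.PB
open Pool.GEN Pool.S6C Pool.STAT Pool.CHT Pool.GRW Pool.ONE Pool.STA
open Pool.LBT (LSys ThrOf)
open Pool.LEV (Law)
open Pool.TOP (TopS)
open Pool.STR (ThinAt SteepAt StaAt StaD IsoAt)
open Pool.NMS (LeAt StepAt thin_or_steep2 sta_of2 slope_eq dia_le)
open Pool.ISO (lvN)

variable {n : ℕ} {hn : 2 ≤ n} {S : PCl n} {P : ℝ → ℝ → ℝ} {r : ℝ → ℝ}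
  {P' : ℕ → List (Fin n) × Fin n → ℝ → ℝ → ℝ} {Λ : Finset (Fin n) → Fin n → ℝ → ℝ → ℝ}
  {PB : ℕ → List (Fin n) × Fin n → ℝ → ℝ → ℝ}

namespace PkT

variable (H : PkT hn S P r P' Λ PB)
include H

/-- **A coordinate with a slope smaller than two is thin**; if its slope is larger than one, it is not
static. -/
theorem gap_all (hTop : TopS n) (hF : FZX (n - 1)) :
    ∀ᵐ g : ℝ, ∀ o : Od n, g ∈ Gs P r P' Λ o → ∀ i ≤ n - 1,
      deriv (fun a => LvL hn P P' o i a a) g < 2 →
      ThinAt (LvL hn P P' o i) (LvT hn PB o i) g ∧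
        (1 < deriv (fun a => LvL hn P P' o i a a) g → ¬ StaAt (LvL hn P P' o i) g) := by
  filter_upwards [H.thin_steep_all H.pble hTop hF, H.dia_all H.pble hTop hF]
    with g h1 h2 o ho i hi hs
  obtain ⟨d1, d2, d3⟩ := h2 o ho i hi
  obtain ⟨α, Q, c, F⟩ := H.toPk.fac hTop hF ho
  rcases h1 o ho i hi with h3 | h3
  · refine ⟨h3, fun h4 h5 => ?_⟩
    have h6 := sta_thin_le d3 d1 h3 h5
    linarith
  · exfalso
    have h4 := steep_ge (H.lawT o i) F.g0 F.g1 d2 h3
    have h5 := slope_eq d2 d1 d3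
      (dia_le (H.lawT o i) (H.lawL o i) F.g0 F.g1 (H.leAt H.pble hTop hF ho hi))
    rw [h5] at hs
    linarith

/-- **The slope of a static coordinate** is at most one or at least two. -/
theorem slope_all (hTop : TopS n) (hF : FZX (n - 1)) :
    ∀ᵐ g : ℝ, ∀ o : Od n, g ∈ Gs P r P' Λ o → ∀ i ≤ n - 1,
      StaAt (LvL hn P P' o i) g → deriv (fun a => LvL hn P P' o i a a) g ≤ 1 ∨
        2 ≤ deriv (fun a => LvL hn P P' o i a a) g := by
  filter_upwards [H.gap_all hTop hF] with g h1 o ho i hi hs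
  by_contra hcon
  push Not at hcon
  exact (h1 o ho i hi hcon.2).2 hcon.1 hs

/-- **The slopes of the two thresholds of a steep coordinate**: at least two. -/
theorem steep_two (hTop : TopS n) (hF : FZX (n - 1)) :
    ∀ᵐ g : ℝ, ∀ o : Od n, g ∈ Gs P r P' Λ o → ∀ i ≤ n - 1,
      SteepAt 2 (LvT hn PB o i) g → 2 ≤ deriv (fun a => LvL hn P P' o i a a) g := by
  filter_upwards [H.dia_all H.pble hTop hF] with g h2 o ho i hi h3
  obtain ⟨d1, d2, d3⟩ := h2 o ho i hi
  obtain ⟨α, Q, c, F⟩ := H.toPk.fac hTop hF ho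
  have h4 := steep_ge (H.lawT o i) F.g0 F.g1 d2 h3
  rw [slope_eq d2 d1 d3
    (dia_le (H.lawT o i) (H.lawL o i) F.g0 F.g1 (H.leAt H.pble hTop hF ho hi))]
  exact h4

/-- **The windows of the target**: iso over the fattest boxes, or `2`-steep with slope at least two. -/
theorem iso_or_steep (hTop : TopS n) (hF : FZX (n - 1)) :
    ∀ᵐ g : ℝ, ∀ o : Od n, g ∈ Gs P r P' Λ o →
      IsoAt (PT hn PB o) g ∨
        SteepAt 2 (PT hn PB o) g ∧ 2 ≤ deriv (fun a => P a a) g := by
  filter_upwards [H.thin_steep_all H.pble hTop hF, H.dia_all H.pble hTop hF, H.steep_two hTop hF]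
    with g h1 h2 h5 o ho
  obtain ⟨α, Q, c, F⟩ := H.toPk.fac hTop hF ho
  obtain ⟨d1, d2, d3⟩ := h2 o ho (n - 1) le_rfl
  have e1 : LvL hn P P' o (n - 1) = P := by
    funext a w
    exact LvL_top o a w
  have h3 := h1 o ho (n - 1) le_rfl
  have h6 := h5 o ho (n - 1) le_rfl
  have hlt : LvL hn P P' o (n - 1) g g < 1 := by
    obtain ⟨E, hE, h4, -⟩ := F.ptD H.toPk
    have := h4 (n - 1) le_rfl
    show lvN (P' o.2) (cc hn o.1.1) (n - 1) P (n - 1) g g < 1
    linarith
  unfold ThK at h3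
  rw [e1, LvT_top] at h3
  rw [e1] at d1 d3 h6 hlt
  rw [LvT_top] at d2 d3 h6
  rcases h3 with h3 | h3
  · have hlt2 : PT hn PB o g g < 1 := by
      rw [← d3]
      exact hlt
    exact Or.inl (STR.iso_of_thin ((H.nk hTop hF).hPT o) F.g0 F.g1 hlt2 d2
      (fun a w a0 a1 a2 => H.le o a w a0 a1 a2) h3)
  · exact Or.inr ⟨h3, h6 h3⟩

/-- **The windows with a static target**: the slope is at least two. -/
theorem win2_all (hTop : TopS n) (hF : FZX (n - 1)) :
    ∀ᵐ g : ℝ, ∀ o : Od n, g ∈ Gs P r P' Λ o → 1 < deriv (fun a => P a a) g → StaAt P g →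
      2 ≤ deriv (fun a => P a a) g := by
  filter_upwards [H.slope_all hTop hF] with g h1 o ho h2 h3
  have e1 : LvL hn P P' o (n - 1) = P := by
    funext a w
    exact LvL_top o a w
  have h4 := h1 o ho (n - 1) le_rfl
  rw [e1] at h4
  rcases h4 h3 with h5 | h5
  · linarith
  · exact h5

end PkT

end Pool.PKG
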